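import Pool.Agent.Helper40.FF.EXT
import Pool.Agent.Helper45.FF.BCFA
import Pool.Agent.Helper59.FF.RamK
import Pool.Agent.Helper88.FF.Ram

/-!
# Project FF: block BCFK (finiteness of the classes of functions, with representatives over the small field)
-/

set_option autoImplicit false

universe u

namespace Pool.Agent.FF40

open Polynomial Pool.Agent.Helper37.UL UL Pool.Agent.OPN Pool.Agent.OPG Pool.Agent.TWT Pool.Agent.FFX VC
  IntermediateField

/-- PART A (helper59, helper88): ramification of an `l`-th root. -/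
def PartA : Prop :=
  ∀ {E C : Type} [Field E] [IsAlgClosed E] [CharZero E] [Field C] [IsAlgClosed C] [Algebra E C]
    (K : IntermediateField E C), IsFunctionField E K → (∀ z : C, IsAlgebraic K z) →
    ∀ (Q : Place E K) (W : ValuationSubring C), W.comap (algebraMap K C) = Q.ring →
    ∀ {l : ℕ}, l.Prime → ∀ {r : C}, r ≠ 0 → ∀ hr : r ^ l ∈ K,
    (∀ γ : C ≃+* C, (∀ z ∈ K, γ z = z) → (∀ z, γ z ∈ W ↔ z ∈ W) → γ r = r) →
    (l : ℤ) ∣ ord Q.ring (⟨r ^ l, hr⟩ : K)

/-- function fields generated by two elements -/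
theorem ff_of_adjoin {k K : Type u} [Field k] [Field K] [Algebra k K] {x z : K} (hx : Transcendental k x)
    (hz : IsAlgebraic (IntermediateField.adjoin k {x}) z)
    (htop : IntermediateField.adjoin k {x, z} = ⊤) : IsFunctionField k K := by
  refine ⟨x, hx, ?_⟩
  set E := IntermediateField.adjoin k {x} with hE
  have h1 : IntermediateField.adjoin E ({z} : Set K) = ⊤ := by
    have h2 : (IntermediateField.adjoin E ({z} : Set K)).restrictScalars k = ⊤ := by
      rw [hE, IntermediateField.adjoin_adjoin_left, Set.union_singleton, Set.pair_comm]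
      exact htop
    exact (IntermediateField.restrictScalars_eq_top_iff (K := k)).1 h2
  have h3 : FiniteDimensional E (IntermediateField.adjoin E ({z} : Set K)) :=
    IntermediateField.adjoin.finiteDimensional hz.isIntegral
  rw [h1] at h3
  exact Module.Finite.equiv (IntermediateField.topEquiv (F := E) (E := K)).toLinearEquiv

theorem ff_pair {C : Type u} [Field C] {κ : Subfield C} {T q : C} (hT : Transcendental κ T)
    (hq : IsAlgebraic (ad κ {T}) q) : IsFunctionField κ (adjoin κ ({T, q} : Set C)) := by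
  have hTm : T ∈ adjoin κ ({T, q} : Set C) := subset_adjoin _ _ (Or.inl rfl)
  have hqm : q ∈ adjoin κ ({T, q} : Set C) := subset_adjoin _ _ (Or.inr rfl)
  refine ff_of_adjoin (x := (⟨T, hTm⟩ : adjoin κ ({T, q} : Set C))) (z := ⟨q, hqm⟩) ?_ ?_ ?_
  · intro h
    exact hT (h.algebraMap (A := C))
  · let i1 : Algebra κ (adjoin κ ({T, q} : Set C)).toSubfield :=
      inferInstanceAs (Algebra κ (adjoin κ ({T, q} : Set C)))
    exact alg_sub (A := κ) (K := κ) (Cs := (adjoin κ ({T, q} : Set C)).toSubfield) le_rfl hTm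
      (fun _ => rfl) hq
  · apply lift_injective
    rw [lift_adjoin, lift_top]
    congr 1
    rw [Set.image_pair]

/-- the small field as a subfield of `E` -/
noncomputable def incl {E C : Type u} [Field E] [Field C] [Algebra E C] {κ : Subfield C}
    (h : κ ≤ (algebraMap E C).fieldRange) : κ →+* E :=
  ((RingEquiv.ofBijective (algebraMap E C).rangeRestrictField
    ⟨(algebraMap E C).rangeRestrictField.injective, fun ⟨_, c, hc⟩ => ⟨c, Subtype.ext hc⟩⟩ :
      E ≃+* (algebraMap E C).fieldRange).symm : (algebraMap E C).fieldRange →+* E).comp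
    (Subfield.inclusion h)

theorem incl_apply {E C : Type u} [Field E] [Field C] [Algebra E C] {κ : Subfield C}
    (h : κ ≤ (algebraMap E C).fieldRange) (z : κ) : algebraMap E C (incl h z) = z := by
  have h1 := (RingEquiv.ofBijective (algebraMap E C).rangeRestrictField
    ⟨(algebraMap E C).rangeRestrictField.injective, fun ⟨_, c, hc⟩ => ⟨c, Subtype.ext hc⟩⟩ :
      E ≃+* (algebraMap E C).fieldRange).apply_symm_apply (Subfield.inclusion h z)
  exact congrArg Subtype.val h1

/-- an integral element lies in the valuation ring -/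
theorem mem_val_of_coeff {C : Type u} [Field C] {K : Subfield C} {s : C} (hs : IsIntegral K s)
    {W : ValuationSubring C} (hW : ∀ i, ((minpoly K s).coeff i : C) ∈ W) : s ∈ W := by
  have h1 : IsIntegral W s := by
    have h2 : ∀ i, ∃ w : W, (w : C) = ((minpoly K s).coeff i : C) := fun i => ⟨⟨_, hW i⟩, rfl⟩
    have h3 : (minpoly K s).map (algebraMap K C) ∈ lifts (algebraMap W C) := by
      rw [lifts_iff_coeff_lifts]
      intro i
      rw [coeff_map]
      obtain ⟨w, hw⟩ := h2 i
      exact ⟨w, hw⟩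
    obtain ⟨P, hP, -, hPm⟩ := lifts_and_natDegree_eq_and_monic h3 ((minpoly.monic hs).map _)
    refine ⟨P, hPm, ?_⟩
    rw [eval₂_eq_eval_map, hP, eval_map_algebraMap]
    exact minpoly.aeval K s
  obtain ⟨w, hw⟩ := (IsIntegrallyClosed.isIntegral_iff (R := W) (K := C)).1 h1
  rw [← hw]
  exact w.2

/-- **Block BCFK**, from Part A. -/
theorem bcfk (hA : PartA) : StmtBCFK := by
  classical
  intro E C _ _ _ _ _ _ A T q hAE hT halg hq l hl S₀ hS₀
  have hC0 : CharZero C := charZero_of_injective_algebraMap (algebraMap E C).injective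
  have hκE : acl A ≤ (algebraMap E C).fieldRange := acl_range hAE
  have hκc : IsAlgClosed (acl A) := acl_isAlgClosed A
  let i0 : Algebra (acl A) E := (incl hκE).toAlgebra
  have hst : IsScalarTower (acl A) E C :=
    IsScalarTower.of_algebraMap_eq fun z => (incl_apply hκE z).symm
  have hTκ : Transcendental (acl A) T := fun h => hT (h.extendScalars (algebraMap (acl A) E).injective)
  have hqκ : IsAlgebraic (ad (acl A) {T}) q := isAlgebraic_mono (ad_mono le_acl le_rfl) hq
  have hL := ff_pair hTκ hqκ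
  have hTX : T ∈ adjoin (acl A) ({T, q} : Set C) := subset_adjoin _ _ (Or.inl rfl)
  have hAX : ad A {T} ≤ (adjoin (acl A) ({T, q} : Set C)).toSubfield := by
    rw [adjoin_ad]
    refine ad_mono le_acl ?_
    rintro _ rfl
    exact Or.inl rfl
  -- the exceptional set
  let G : Finset C := S₀.biUnion fun s => ((Finset.range ((minpoly (ad A {T}) s).natDegree + 1)).image
    fun i => ((minpoly (ad A {T}) s).coeff i : C)).filter fun g => g ≠ 0
  have hG : ∀ g ∈ G, g ≠ 0 ∧ g ∈ adjoin (acl A) ({T, q} : Set C) := by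
    intro g hg
    obtain ⟨s, -, hs⟩ := Finset.mem_biUnion.1 hg
    obtain ⟨h1, h2⟩ := Finset.mem_filter.1 hs
    obtain ⟨i, -, rfl⟩ := Finset.mem_image.1 h1
    exact ⟨h2, hAX (Subtype.coe_prop _)⟩
  obtain ⟨hff, T0, hT0, hT1⟩ := Pool.Agent.FF45.bCFX (A := acl A) (E := E) ({T, q} : Set C) hT hTX hL
    hl.pos G hG
  have hroot : ∀ t : C, ∃ w : C, w ^ l = t := fun t => IsAlgClosed.exists_pow_nat_eq t hl.pos
  choose ρ hρ using hroot
  have hadj : ∀ z : C, z ∈ adjoin (acl A) ({T, q} : Set C) ↔ z ∈ ad (acl A) {T, q} := fun z =>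
    mem_adjoin_iff
  have hEadj : ∀ z : C, z ∈ adjoin E ({T, q} : Set C) ↔ z ∈ ad (algebraMap E C).fieldRange {T, q} := by
    intro z
    have h1 := adjoin_sub (F := E) (A := C) ({T, q} : Set C)
    rw [← h1]
    exact Iff.rfl
  refine ⟨T0.image ρ, ?_, ?_⟩
  · intro w hw
    obtain ⟨t, ht, rfl⟩ := Finset.mem_image.1 hw
    obtain ⟨ht0, htm⟩ := hT0 t ht
    refine ⟨?_, ?_, ?_⟩
    · have h1 : t ∈ acl (ad A {T}) := by
        refine (ad_le (acl_mono le_ad) ?_ : ad (acl A) {T, q} ≤ _) ((hadj t).1 htm)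
        rintro _ (rfl | rfl)
        · exact le_acl mem_adE
        · exact mem_acl.2 hq
      refine acl_closed ?_
      refine ⟨X ^ l - Polynomial.C ⟨t, h1⟩, ?_, ?_⟩
      · exact (monic_X_pow_sub_C _ hl.ne_zero).ne_zero
      · rw [map_sub, map_pow, aeval_X, aeval_C, hρ]
        exact sub_self _
    · intro h0
      apply ht0
      rw [← hρ t, h0, zero_pow hl.ne_zero]
    · rw [hρ]
      exact (hadj t).1 htm
  · intro r hr0 hr hγ
    have hrK : r ^ l ∈ adjoin E ({T, q} : Set C) := (hEadj _).2 hr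
    have halgK : ∀ z : C, IsAlgebraic (adjoin E ({T, q} : Set C)) z := by
      intro z
      have h1 : adjoin E {T} ≤ adjoin E ({T, q} : Set C) := adjoin.mono _ _ _ (by
        rintro _ rfl
        exact Or.inl rfl)
      have h2 : IsAlgebraic (adjoin E {T}).toSubfield z := halg z
      have h3 : IsAlgebraic (adjoin E ({T, q} : Set C)).toSubfield z := isAlgebraic_mono h1 h2
      exact h3
    obtain ⟨t, ht, w, hw0, hw⟩ := hT1 ⟨r ^ l, hrK⟩ (by
        intro h0
        exact pow_ne_zero l hr0 (congrArg Subtype.val h0)) (by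
      intro Q hQ
      obtain ⟨W, hW⟩ := Pool.Agent.SC.exists_comap_eq (algebraMap (adjoin E ({T, q} : Set C)) C) Q.ring
      have hWE : ∀ e : E, algebraMap E C e ∈ W := fun e =>
        (hW (algebraMap E _ e)).2 (Q.algebraMap_mem e)
      have hWQ : W.comap (algebraMap (adjoin E ({T, q} : Set C)) C) = Q.ring := by
        ext z
        exact hW z
      refine hA _ hff halgK Q W hWQ hl hr0 hrK fun γ hγ1 hγ2 => ?_
      refine hγ W ?_ hWE ?_ γ ⟨fun z hz => hγ1 z ((hEadj z).2 hz), hγ2⟩
      · rintro rfl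
        apply Q.ne_top
        rw [← hWQ]
        rfl
      · intro s hs
        refine mem_val_of_coeff (K := ad A {T}) (mem_acl.1 (hS₀ s hs)).isIntegral fun i => ?_
        by_cases h0 : ((minpoly (ad A {T}) s).coeff i : C) = 0
        · rw [h0]
          exact W.zero_mem
        · have h1 : ((minpoly (ad A {T}) s).coeff i : C) ∈ G := by
            refine Finset.mem_biUnion.2 ⟨s, hs, Finset.mem_filter.2 ⟨Finset.mem_image.2 ⟨i, ?_, rfl⟩, h0⟩⟩
            rw [Finset.mem_range, Nat.lt_succ_iff]
            apply le_natDegree_of_ne_zero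
            intro h2
            apply h0
            rw [h2]
            rfl
          have h2 : ((minpoly (ad A {T}) s).coeff i : C) ∈ adjoin E ({T, q} : Set C) :=
            adjoin_le_adjoin ({T, q} : Set C) (hG _ h1).2
          have h3 := hQ ⟨_, h2⟩ h1
          have h4 : (⟨_, h2⟩ : adjoin E ({T, q} : Set C)) ≠ 0 := fun h5 => h0 (congrArg Subtype.val h5)
          have h5 := (VC.ord_nonneg_iff hff Q h4).1 h3.ge
          exact (hW ⟨_, h2⟩).2 h5)
    refine ⟨ρ t, Finset.mem_image_of_mem _ ht, ?_⟩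
    have hρ0 : ρ t ≠ 0 := by
      intro h0
      apply (hT0 t ht).1
      rw [← hρ t, h0, zero_pow hl.ne_zero]
    have hw0' : (w : C) ≠ 0 := fun h0 => hw0 (Subtype.ext h0)
    have h1 : (r / (ρ t * w)) ^ l = 1 := by
      have h2 : r ^ l = t * (w : C) ^ l := hw
      rw [div_pow, mul_pow, hρ, h2]
      exact div_self (mul_ne_zero (hT0 t ht).1 (pow_ne_zero _ hw0'))
    have h2 : r / (ρ t * w) ∈ (algebraMap E C).fieldRange := by
      have h3 : IsAlgebraic E (r / (ρ t * w)) := by
        refine ⟨X ^ l - 1, (monic_X_pow_sub_C _ hl.ne_zero).ne_zero, ?_⟩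
        rw [map_sub, map_pow, aeval_X, map_one, h1, sub_self]
      obtain ⟨e, he⟩ := minpoly.mem_range_of_degree_eq_one E (r / (ρ t * w))
        (IsAlgClosed.degree_eq_one_of_irreducible E (minpoly.irreducible h3.isIntegral))
      exact ⟨e, he⟩
    have h3 : r / ρ t = r / (ρ t * w) * w := by
      field_simp
    rw [h3]
    exact mul_mem (le_ad h2) ((hEadj w).1 w.2)

/-- **Block BCFK**, from helper88's lemma `ram`. -/
theorem bcfk_of_ram (hRAM : StmtRAM) : StmtBCFK :=
  bcfk fun K hK halg Q W hW _ hl _ hr0 hr hγ => partA' hRAM K hK halg Q W hW hl hr0 hr hγ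

/-- **Block BCFK.** -/
theorem stmtBCFK : StmtBCFK :=
  bcfk_of_ram fun halg _ hl hz _ hr0 hr W hW =>
    Pool.Agent.Helper88.FF.ram halg hl hz hr0 hr W hW

end Pool.Agent.FF40
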