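import Pool.Agent.Helper40.FF.A1
import Pool.Agent.Helper10.FF.Defs

/-!
# Project FF: blocks GA (all zeros are conjugate) and BE (three independent zeros)
-/

set_option autoImplicit false

namespace Pool.Agent.FF40

open Polynomial Pool.Agent.Helper37.UL UL Pool.Agent.OPN Pool.Agent.OPG Pool.Agent.TWT Pool.Agent.FFX

section

variable {C S : Type} [Field C] [Field S] {φ : C →+* S} {A : Subfield C} {T q : C} {m : ℕ}
    {u : Fin (m + 2) → C} {x : Fin (m + 2) → S} {D : Subfield S}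

theorem kap_le : (acl A).map φ ≤ acl (A.map φ) := by
  rintro _ ⟨z, hz, rfl⟩
  exact mem_acl.2 (alg_map' φ (L := A.map φ) (fun y hy => ⟨y, hy, rfl⟩) (mem_acl.1 hz))

theorem le_kap : A.map φ ≤ (acl A).map φ := by
  rintro _ ⟨z, hz, rfl⟩
  exact ⟨z, le_acl hz, rfl⟩

theorem kap_indep {I : Type*} {x : I → S} (hx : AlgebraicIndependent (A.map φ) x) :
    AlgebraicIndependent ((acl A).map φ) x := indep_mono kap_le (indep_acl hx)

/-- the image of an algebraic closure -/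
theorem iota_alg (ι : acl (ad A {T}) →+* S) (hc : ∀ z : acl (ad A {T}), (z : C) ∈ acl A → ι z = φ z)
    (hT : T ∈ acl (ad A {T})) (z : acl (ad A {T})) :
    ι z ∈ acl (ad ((acl A).map φ) {ι ⟨T, hT⟩}) := by
  have h0 : ad A {T} ≤ acl (ad A {T}) := le_acl
  have h1 := alg_comap h0 (mem_acl.1 z.2)
  refine mem_acl.2 (alg_map' ι (fun y hy => ?_) h1)
  have h2 : ad A {T} ≤ ((ad ((acl A).map φ) {ι ⟨T, hT⟩}).comap ι).map (acl (ad A {T})).subtype := by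
    refine ad_le (fun w hw => ?_) ?_
    · refine ⟨⟨w, h0 (le_ad hw)⟩, ?_, rfl⟩
      have h3 : ι ⟨w, h0 (le_ad hw)⟩ = φ w := hc ⟨w, h0 (le_ad hw)⟩ (le_acl hw)
      have h4 : ι ⟨w, h0 (le_ad hw)⟩ ∈ ad ((acl A).map φ) {ι ⟨T, hT⟩} := by
        rw [h3]
        exact le_ad ⟨w, le_acl hw, rfl⟩
      exact h4
    · rintro _ rfl
      exact ⟨⟨_, hT⟩, mem_adE, rfl⟩
  obtain ⟨y', hy', hyy⟩ := h2 hy
  have h3 : y' = y := Subtype.ext hyy
  rw [← h3]
  exact hy'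

theorem ad_pair_le (h : SD φ A T q u x D) : ad A {T, q} ≤ acl (ad A {T}) := by
  refine ad_le (le_ad.trans le_acl) ?_
  rintro _ (rfl | rfl)
  · exact le_acl mem_adE
  · exact mem_acl.2 h.hq

theorem hu_mem (h : SD φ A T q u x D) (e : Fin (m + 2)) : u e ∈ acl (ad A {T}) := ad_pair_le h (h.hu e)

theorem rel0 (h : SD φ A T q u x D) {ι : acl (ad A {T}) →+* S} (hι : SZ φ A T u x ι) :
    x 0 + ∑ i : Fin (m + 1), x i.succ * ι ⟨u i.succ, hu_mem h _⟩ = 0 := by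
  have h1 := hι.rel (hu_mem h)
  have h0 : (⟨u 0, hu_mem h 0⟩ : acl (ad A {T})) = 1 := Subtype.ext h.hu0
  rw [Fin.sum_univ_succ, h0, map_one, mul_one] at h1
  exact h1

/-- the values are algebraic over the field generated by the coefficients -/
theorem alg_val (h : SD φ A T q u x D) {ι : acl (ad A {T}) →+* S} (hι : SZ φ A T u x ι)
    (z : acl (ad A {T})) : IsAlgebraic (gn (A.map φ) x) (ι z) := by
  have hT : T ∈ acl (ad A {T}) := le_acl mem_adE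
  have h1 := TW.tau_alg_W (kap_indep h.hx) (rel0 h hι)
    (fun i => alg_adjoin_iff.2 (mem_acl.1 (iota_alg ι hι.const hT _)))
  have h2 : IsAlgebraic (gn ((acl A).map φ) x) (ι ⟨T, hT⟩) := alg_adjoin_iff.1 h1
  have h3 : gn ((acl A).map φ) x ≤ acl (gn (A.map φ) x) :=
    gn_le (kap_le.trans (acl_mono le_gn)) fun i => le_acl (mem_gn i)
  have h4 : ι ⟨T, hT⟩ ∈ acl (gn (A.map φ) x) := acl_le h3 (mem_acl.2 h2)
  refine mem_acl.1 (acl_le ?_ (iota_alg ι hι.const hT z))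
  refine ad_le (kap_le.trans (acl_mono le_gn)) ?_
  rintro _ rfl
  exact h4

variable [IsAlgClosed S]

/-- two zeros are conjugate over the constants and the generic coefficients -/
theorem ga0 (h : SD φ A T q u x D) {ι ι' : acl (ad A {T}) →+* S} (hι : SZ φ A T u x ι)
    (hι' : SZ φ A T u x ι') :
    ∃ σ : S ≃+* S, (∀ z, σ (ι z) = ι' z) ∧ ∀ z ∈ gn ((acl A).map φ) x, σ z = z := by
  have hT : T ∈ acl (ad A {T}) := le_acl mem_adE
  refine ga_abs (kap_indep h.hx) ι ι' (fun i => ⟨u i.succ, hu_mem h _⟩) ⟨T, hT⟩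
    (iota_alg ι hι.const hT) (iota_alg ι' hι'.const hT) ?_ (rel0 h hι) (rel0 h hι')
  rintro _ ⟨c, hc, rfl⟩
  exact ⟨⟨c, acl_mono le_ad hc⟩, hι.const _ hc, hι'.const _ hc⟩

/-- lifting over `D` -/
theorem lift_D [CharZero S] (h : SD φ A T q u x D) {I : Type*} [Finite I] (b : I → S)
    (hb : ∀ i, IsAlgebraic (gn (A.map φ) x) (b i)) (σ : S ≃+* S)
    (hσ : ∀ z ∈ gn ((acl A).map φ) x, σ z = z) :
    ∃ τ : S ≃+* S, (∀ z ∈ D, τ z = z) ∧ ∀ i, τ (b i) = σ (b i) := by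
  have hGD : gn (A.map φ) x ≤ D := gn_le h.hAD h.hxD
  refine lift_conj (B := D ⊓ acl (gn (A.map φ) x)) inf_le_left ?_ b (fun i => ?_) σ ?_
  · intro z hz hz'
    exact ⟨hz, acl_closed (isAlgebraic_mono inf_le_right hz')⟩
  · exact isAlgebraic_mono (le_inf hGD le_acl) (hb i)
  · rintro z ⟨hz, hz'⟩
    exact hσ z (h.hwr z hz (mem_acl.1 hz'))

end

/-- **Block GA.** -/
theorem stmtGA : StmtGA := by
  intro C S _ _ _ _ _ φ A T q m u x D h hT hq ι ι' hι hι' c M hM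
  have hS : CharZero S := charZero_of_injective_ringHom φ.injective
  obtain ⟨σ, hσ, hσx⟩ := ga0 h hι hι'
  obtain ⟨τ, hτ, hτb⟩ := lift_D h ![ι ⟨T, hT⟩, ι ⟨q, hq⟩]
    (fun i => by
      refine Fin.cases ?_ (fun i => ?_) i
      · exact alg_val h hι _
      · refine Fin.cases ?_ (fun i => i.elim0) i
        exact alg_val h hι _) σ hσx
  have h1 : τ (ι ⟨T, hT⟩) = ι' ⟨T, hT⟩ := (hτb 0).trans (hσ _)
  have h2 : τ (ι ⟨q, hq⟩) = ι' ⟨q, hq⟩ := (hτb 1).trans (hσ _)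
  have h3 : τ (ι ⟨T, hT⟩ + c * ι ⟨q, hq⟩) = ι' ⟨T, hT⟩ + c * ι' ⟨q, hq⟩ := by
    rw [map_add, map_mul, map_natCast, h1, h2]
  rw [← h3, ← map_aeval hτ, hM, map_zero]

/-! ## Block BE -/

/-- algebraic elements over the range of an algebraically closed field -/
theorem mem_range_of_alg {F : Type} {S : Type} [Field F] [Field S] [IsAlgClosed F] (j : F →+* S) {z : S}
    (hz : IsAlgebraic j.fieldRange z) : ∃ w, j w = z := by
  let i1 : Algebra F S := j.toAlgebra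
  have h2 : IsAlgebraic F z := Pool.Agent.TD.isAlgebraic_range_iff.1 hz
  exact minpoly.mem_range_of_degree_eq_one F z
    (IsAlgClosed.degree_eq_one_of_irreducible F (minpoly.irreducible h2.isIntegral))

theorem acl_isAlgClosed {C : Type} [Field C] [IsAlgClosed C] (K : Subfield C) : IsAlgClosed (acl K) := by
  have hOm : IsAlgClosed (algebraicClosure K C) := (algebraicClosure.isAlgClosure K C).isAlgClosed
  exact hOm

/-- the constants are algebraically closed -/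
theorem kap_closed {C S : Type} [Field C] [Field S] [IsAlgClosed C] {φ : C →+* S} {A : Subfield C} {z : S}
    (hz : IsAlgebraic ((acl A).map φ) z) : z ∈ (acl A).map φ := by
  have hcl := acl_isAlgClosed A
  have h1 : (acl A).map φ ≤ (φ.comp (acl A).subtype).fieldRange := by
    rintro _ ⟨c, hc, rfl⟩
    exact ⟨⟨c, hc⟩, rfl⟩
  obtain ⟨w, hw⟩ := mem_range_of_alg (φ.comp (acl A).subtype) (isAlgebraic_mono h1 hz)
  exact ⟨w, w.2, hw⟩

/-- an element of `K(T)`, `K` algebraic over `A`, depends on finitely many elements -/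
theorem fin_dep {C : Type} [Field C] {K : Subfield C} {T w : C} (hw : w ∈ ad K {T}) :
    ∃ Z : Finset C, (∀ z ∈ Z, z ∈ K) ∧ ∀ f : C ≃+* C, (∀ z ∈ Z, f z = z) → f T = T → f w = w := by
  classical
  unfold ad at hw
  induction hw using Subfield.closure_induction with
  | mem y hy =>
    rcases hy with hy | hy
    · exact ⟨{y}, fun z hz => by rw [Finset.mem_singleton.1 hz]; exact hy,
        fun f hf _ => hf y (Finset.mem_singleton_self y)⟩
    · rw [Set.mem_singleton_iff] at hy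
      exact ⟨∅, fun z hz => absurd hz (Finset.notMem_empty z), fun f _ hf => by rw [hy]; exact hf⟩
  | one => exact ⟨∅, fun z hz => absurd hz (Finset.notMem_empty z), fun f _ _ => map_one f⟩
  | add y z _ _ hy hz =>
    obtain ⟨Z1, h1, h2⟩ := hy
    obtain ⟨Z2, h3, h4⟩ := hz
    refine ⟨Z1 ∪ Z2, fun z hz => ?_, fun f hf hT => ?_⟩
    · rcases Finset.mem_union.1 hz with hz | hz
      · exact h1 z hz
      · exact h3 z hz
    · rw [map_add, h2 f (fun z hz => hf z (Finset.mem_union_left _ hz)) hT,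
        h4 f (fun z hz => hf z (Finset.mem_union_right _ hz)) hT]
  | neg y _ hy =>
    obtain ⟨Z1, h1, h2⟩ := hy
    exact ⟨Z1, h1, fun f hf hT => by rw [map_neg, h2 f hf hT]⟩
  | inv y _ hy =>
    obtain ⟨Z1, h1, h2⟩ := hy
    exact ⟨Z1, h1, fun f hf hT => by rw [map_inv₀, h2 f hf hT]⟩
  | mul y z _ _ hy hz =>
    obtain ⟨Z1, h1, h2⟩ := hy
    obtain ⟨Z2, h3, h4⟩ := hz
    refine ⟨Z1 ∪ Z2, fun z hz => ?_, fun f hf hT => ?_⟩
    · rcases Finset.mem_union.1 hz with hz | hz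
      · exact h1 z hz
      · exact h3 z hz
    · rw [map_mul, h2 f (fun z hz => hf z (Finset.mem_union_left _ hz)) hT,
        h4 f (fun z hz => hf z (Finset.mem_union_right _ hz)) hT]

/-- **Regularity.**  The minimal polynomial does not change under the extension of the constants. -/
theorem star {C : Type} [Field C] [IsAlgClosed C] [CharZero C] {A : Subfield C} {T q q' : C}
    (hreg : ∀ z ∈ ad A {T, q}, IsAlgebraic A z → z ∈ A) (hq : IsAlgebraic (ad A {T}) q)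
    (hq' : aeval q' (minpoly (ad A {T}) q) = 0) : aeval q' (minpoly (ad (acl A) {T}) q) = 0 := by
  classical
  obtain ⟨ρ, hρ, hρq⟩ := Pool.Agent.Helper37.UL.exists_aut (K := ad A {T}) hq.isIntegral hq'
  set P := minpoly (ad (acl A) {T}) q with hP
  have h1 : ∀ i, ∃ Z : Finset C, (∀ z ∈ Z, z ∈ acl A) ∧
      ∀ f : C ≃+* C, (∀ z ∈ Z, f z = z) → f T = T → f (P.coeff i : C) = (P.coeff i : C) := fun i =>
    fin_dep (P.coeff i).2
  choose Z hZ hZf using h1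
  let Z0 : Finset C := (Finset.range (P.natDegree + 1)).biUnion Z
  have hZ0 : ∀ z : Z0, IsAlgebraic A (z : C) := by
    intro z
    obtain ⟨i, -, hi⟩ := Finset.mem_biUnion.1 z.2
    exact mem_acl.1 (hZ i _ hi)
  obtain ⟨τ, hτ, hτZ⟩ := lift_conj (B := A) (K' := ad A {T, q}) le_ad hreg (fun z : Z0 => (z : C)) hZ0
    ρ.symm (fun y hy => by rw [RingEquiv.symm_apply_eq]; exact (hρ y (le_ad hy)).symm)
  let f : C ≃+* C := τ.trans ρ
  have hf : ∀ z, f z = ρ (τ z) := fun _ => rfl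
  have hfT : f T = T := by
    rw [hf, hτ T (mem_ad (Or.inl rfl)), hρ T mem_adE]
  have hfq : f q = q' := by
    rw [hf, hτ q (mem_ad (Or.inr rfl)), hρq]
  have hfP : ∀ i ∈ Finset.range (P.natDegree + 1), f (P.coeff i : C) = (P.coeff i : C) := by
    intro i hi
    refine hZf i f (fun z hz => ?_) hfT
    have h2 : z ∈ Z0 := Finset.mem_biUnion.2 ⟨i, hi, hz⟩
    rw [hf, hτZ ⟨z, h2⟩, RingEquiv.apply_symm_apply]
  have h2 : f (aeval q P) = aeval q' P := by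
    rw [aeval_eq_sum_range, aeval_eq_sum_range, map_sum]
    refine Finset.sum_congr rfl fun i hi => ?_
    rw [Algebra.smul_def, Algebra.smul_def, map_mul, map_pow, hfq]
    congr 1
    exact hfP i hi
  rw [← h2, hP, minpoly.aeval, map_zero]

section

variable {C S : Type} [Field C] [Field S] [CharZero C] [IsAlgClosed C] [IsAlgClosed S] {φ : C →+* S}
    {A : Subfield C} {T q : C} {m : ℕ} {u : Fin (m + 2) → C} {x : Fin (m + 2) → S} {D : Subfield S}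

theorem tr_val (h : SD φ A T q u x D) {ι : acl (ad A {T}) →+* S} (hι : SZ φ A T u x ι)
    (hT : T ∈ acl (ad A {T})) : Transcendental ((acl A).map φ) (ι ⟨T, hT⟩) :=
  (TW.tau_tr_W (kap_indep h.hx) (rel0 h hι)
    (fun i => alg_adjoin_iff.2 (mem_acl.1 (iota_alg ι hι.const hT _)))).1

/-- **Extension of homomorphisms.** -/
theorem ext_hom (h : SD φ A T q u x D) (hreg : ∀ z ∈ ad A {T, q}, IsAlgebraic A z → z ∈ A)
    {ι : acl (ad A {T}) →+* S} (hι : SZ φ A T u x ι) (g : S ≃+* S) (hg : ∀ z ∈ D, g z = z) :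
    ∃ ι' : acl (ad A {T}) →+* S, SZ φ A T u x ι' ∧
      ∀ z : acl (ad A {T}), (z : C) ∈ ad A {T, q} → ι' z = g (ι z) := by
  have hT : T ∈ acl (ad A {T}) := le_acl mem_adE
  have hq : q ∈ acl (ad A {T}) := mem_acl.2 h.hq
  have hcl := acl_isAlgClosed (ad A {T})
  have hcA : ∀ z : acl (ad A {T}), (z : C) ∈ A → g (ι z) = φ z := by
    intro z hz
    rw [hι.const z (le_acl hz)]
    exact hg _ (h.hAD ⟨z, hz, rfl⟩)
  -- the value of `T`
  have h1 := tr_val h hι hT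
  have h2 : Transcendental ((acl A).map φ) (g (ι ⟨T, hT⟩)) := by
    intro h3
    have h4 : IsAlgebraic (A.map φ) (g (ι ⟨T, hT⟩)) := mem_acl.1 (acl_le kap_le (mem_acl.2 h3))
    have h5 : IsAlgebraic (A.map φ) ((g.symm : S →+* S) (g (ι ⟨T, hT⟩))) := by
      refine alg_map' (g.symm : S →+* S) (fun y hy => ?_) h4
      have h6 : g.symm y = y := by
        rw [RingEquiv.symm_apply_eq]
        exact (hg y (h.hAD hy)).symm
      change g.symm y ∈ _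
      rw [h6]
      exact hy
    have h6 : (g.symm : S →+* S) (g (ι ⟨T, hT⟩)) = ι ⟨T, hT⟩ := g.symm_apply_apply _
    rw [h6] at h5
    exact h1 (isAlgebraic_mono le_kap h5)
  obtain ⟨D0, φ0, hD0, hφ0, hφ0T⟩ := exists_emb h1 h2
  have hιD : ∀ z, ι z ∈ D0 := fun z => hD0 _ (mem_acl.1 (iota_alg ι hι.const hT z))
  let ρ : acl (ad A {T}) →+* S := φ0.comp (ι.codRestrict D0.toSubring hιD)
  have hρ : ∀ z, ρ z = φ0 ⟨ι z, hιD z⟩ := fun _ => rfl
  have hρc : ∀ z : acl (ad A {T}), (z : C) ∈ acl A → ρ z = φ z := by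
    intro z hz
    rw [hρ, hφ0 _ (by rw [show ((⟨ι z, hιD z⟩ : D0) : S) = φ z from hι.const z hz]; exact ⟨z, hz, rfl⟩)]
    exact hι.const z hz
  have hρT : ρ ⟨T, hT⟩ = g (ι ⟨T, hT⟩) := hφ0T _ rfl
  -- the two homomorphisms agree on `A(T)`
  have hag : ∀ z : acl (ad A {T}), (z : C) ∈ ad A {T} → g (ι z) = ρ z := by
    have h3 : ad A {T} ≤ (RingHom.eqLocusField ((g : S →+* S).comp ι) ρ).map (acl (ad A {T})).subtype := by
      refine ad_le (fun w hw => ?_) ?_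
      · refine ⟨⟨w, le_acl (le_ad hw)⟩, ?_, rfl⟩
        change g (ι ⟨w, le_acl (le_ad hw)⟩) = ρ ⟨w, le_acl (le_ad hw)⟩
        rw [hcA _ hw, hρc _ (le_acl hw)]
      · rintro _ rfl
        exact ⟨⟨_, hT⟩, hρT.symm, rfl⟩
    intro z hz
    obtain ⟨z', hz', hzz⟩ := h3 hz
    have h4 : z' = z := Subtype.ext hzz
    rw [← h4]
    exact hz'
  -- the value of `q`
  have hP1 : ∀ (k : acl (ad A {T}) →+* S) (z : acl (ad A {T})) (P : (ad A {T})[X]),
      k ⟨aeval (z : C) P, by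
        rw [aeval_eq_sum_range]
        refine sum_mem fun i _ => ?_
        rw [Algebra.smul_def]
        exact mul_mem (le_acl (P.coeff i).2) (pow_mem z.2 _)⟩ =
      ∑ i ∈ Finset.range (P.natDegree + 1), k ⟨(P.coeff i : C), le_acl (P.coeff i).2⟩ * k z ^ i := by
    intro k z P
    have h3 : (⟨aeval (z : C) P, by
        rw [aeval_eq_sum_range]
        refine sum_mem fun i _ => ?_
        rw [Algebra.smul_def]
        exact mul_mem (le_acl (P.coeff i).2) (pow_mem z.2 _)⟩ : acl (ad A {T})) =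
        ∑ i ∈ Finset.range (P.natDegree + 1), ⟨(P.coeff i : C), le_acl (P.coeff i).2⟩ * z ^ i := by
      apply Subtype.ext
      rw [← (acl (ad A {T})).subtype_apply (∑ i ∈ Finset.range (P.natDegree + 1), _), map_sum]
      change aeval (z : C) P = _
      rw [aeval_eq_sum_range]
      refine Finset.sum_congr rfl fun i _ => ?_
      rw [Algebra.smul_def]
      rfl
    rw [h3, map_sum]
    refine Finset.sum_congr rfl fun i _ => ?_
    rw [map_mul, map_pow]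
  have hl : IsAlgebraic ρ.fieldRange (g (ι ⟨q, hq⟩)) := by
    have h3 := alg_comap (K := ad A {T}) le_acl (z := ⟨q, hq⟩) h.hq
    refine alg_map' ((g : S →+* S).comp ι) (fun y hy => ?_) h3
    exact ⟨y, (hag y hy).symm⟩
  obtain ⟨q', hq'⟩ := mem_range_of_alg ρ hl
  have hroot : aeval (q' : C) (minpoly (ad A {T}) q) = 0 := by
    set P := minpoly (ad A {T}) q with hP
    have h3 := hP1 ((g : S →+* S).comp ι) ⟨q, hq⟩ P
    have h4 := hP1 ρ q' P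
    have h5 : ∑ i ∈ Finset.range (P.natDegree + 1), ρ ⟨(P.coeff i : C), le_acl (P.coeff i).2⟩ * ρ q' ^ i =
        ∑ i ∈ Finset.range (P.natDegree + 1), ((g : S →+* S).comp ι) ⟨(P.coeff i : C),
          le_acl (P.coeff i).2⟩ * ((g : S →+* S).comp ι) ⟨q, hq⟩ ^ i := by
      refine Finset.sum_congr rfl fun i _ => ?_
      rw [← hag _ (P.coeff i).2, hq']
      rfl
    rw [h5, ← h3] at h4
    have h6 : aeval q P = 0 := minpoly.aeval _ _
    have h7 : ∀ (w : C) (hw : w ∈ acl (ad A {T})), w = 0 → ((g : S →+* S).comp ι) ⟨w, hw⟩ = 0 := by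
      rintro w hw rfl
      exact map_zero ((g : S →+* S).comp ι)
    rw [h7 _ _ h6] at h4
    have h8 := (map_eq_zero ρ).1 h4
    exact congrArg Subtype.val h8
  have hroot' := star hreg h.hq hroot
  obtain ⟨θ, hθ, hθq⟩ := Pool.Agent.Helper37.UL.exists_aut (K := ad (acl A) {T})
    (isAlgebraic_mono (ad_mono le_acl le_rfl) h.hq).isIntegral hroot'
  have hθT : θ T = T := hθ T mem_adE
  have hθm : ∀ z : acl (ad A {T}), θ z ∈ acl (ad A {T}) := by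
    intro z
    refine mem_acl.2 (alg_map' (θ : C →+* C) (fun y hy => ?_) (mem_acl.1 z.2))
    change θ y ∈ _
    rw [hθ y (ad_mono le_acl le_rfl hy)]
    exact hy
  let ι' : acl (ad A {T}) →+* S :=
    ρ.comp (((θ : C →+* C).comp (acl (ad A {T})).subtype).codRestrict (acl (ad A {T})).toSubring hθm)
  have hι' : ∀ z, ι' z = ρ ⟨θ z, hθm z⟩ := fun _ => rfl
  have hι'c : ∀ z : acl (ad A {T}), (z : C) ∈ acl A → ι' z = φ z := by
    intro z hz
    have h3 : (⟨θ z, hθm z⟩ : acl (ad A {T})) = z := Subtype.ext (hθ _ (le_ad hz))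
    rw [hι', h3]
    exact hρc z hz
  have hι'T : ι' ⟨T, hT⟩ = g (ι ⟨T, hT⟩) := by
    have h3 : (⟨θ ((⟨T, hT⟩ : acl (ad A {T})) : C), hθm ⟨T, hT⟩⟩ : acl (ad A {T})) = ⟨T, hT⟩ :=
      Subtype.ext hθT
    rw [hι', h3, hρT]
  have hι'q : ι' ⟨q, hq⟩ = g (ι ⟨q, hq⟩) := by
    have h3 : (⟨θ ((⟨q, hq⟩ : acl (ad A {T})) : C), hθm ⟨q, hq⟩⟩ : acl (ad A {T})) = q' :=
      Subtype.ext hθq
    rw [hι', h3, hq']
  have hfin : ∀ z : acl (ad A {T}), (z : C) ∈ ad A {T, q} → ι' z = g (ι z) := by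
    have h3 : ad A {T, q} ≤
        (RingHom.eqLocusField ι' ((g : S →+* S).comp ι)).map (acl (ad A {T})).subtype := by
      refine ad_le (fun w hw => ?_) ?_
      · refine ⟨⟨w, le_acl (le_ad hw)⟩, ?_, rfl⟩
        change ι' ⟨w, le_acl (le_ad hw)⟩ = g (ι ⟨w, le_acl (le_ad hw)⟩)
        rw [hcA _ hw, hι'c _ (le_acl hw)]
      · rintro _ (rfl | rfl)
        · exact ⟨⟨_, hT⟩, hι'T, rfl⟩
        · exact ⟨⟨_, hq⟩, hι'q, rfl⟩
    intro z hz
    obtain ⟨z', hz', hzz⟩ := h3 hz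
    have h4 : z' = z := Subtype.ext hzz
    rw [← h4]
    exact hz'
  refine ⟨ι', ⟨hι'c, fun hu => ?_⟩, hfin⟩
  have h3 := congrArg g (hι.rel hu)
  rw [map_zero, map_sum] at h3
  rw [← h3]
  refine Finset.sum_congr rfl fun e _ => ?_
  rw [map_mul, hg _ (h.hxD e), hfin _ (h.hu e)]

end

/-- two homomorphisms which agree on `A` and on `X` -/
theorem agree {C S : Type} [Field C] [Field S] {A Cs : Subfield C} {k k' : Cs →+* S} {X : Set C} (hA : A ≤ Cs)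
    (hX : ∀ z ∈ X, z ∈ Cs) (h1 : ∀ z : Cs, (z : C) ∈ A → k z = k' z)
    (h2 : ∀ z : Cs, (z : C) ∈ X → k z = k' z) : ∀ z : Cs, (z : C) ∈ ad A X → k z = k' z := by
  have h3 : ad A X ≤ (RingHom.eqLocusField k k').map Cs.subtype := by
    refine ad_le (fun w hw => ?_) fun w hw => ?_
    · exact ⟨⟨w, hA hw⟩, h1 ⟨w, hA hw⟩ hw, rfl⟩
    · exact ⟨⟨w, hX w hw⟩, h2 ⟨w, hX w hw⟩ hw, rfl⟩
  intro z hz
  obtain ⟨z', hz', hzz⟩ := h3 hz
  have h4 : z' = z := Subtype.ext hzz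
  rw [← h4]
  exact hz'

section

variable {C S : Type} [Field C] [Field S] {φ : C →+* S} {A : Subfield C} {T q : C} {m : ℕ}
    {u : Fin (m + 2) → C} {x : Fin (m + 2) → S} {D : Subfield S}

/-- the difference of two relations -/
theorem rel_diff (h : SD φ A T q u x D) {ι1 ι2 : acl (ad A {T}) →+* S} (h1 : SZ φ A T u x ι1)
    (h2 : SZ φ A T u x ι2) (hT : T ∈ acl (ad A {T})) (hne : ι1 ⟨T, hT⟩ ≠ ι2 ⟨T, hT⟩) :
    x (Fin.succ 0) + ∑ i : Fin m, x i.succ.succ * ((ι1 ⟨u i.succ.succ, hu_mem h _⟩ -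
      ι2 ⟨u i.succ.succ, hu_mem h _⟩) / (ι1 ⟨T, hT⟩ - ι2 ⟨T, hT⟩)) = 0 := by
  have e1 := rel0 h h1
  have e2 := rel0 h h2
  have h3 : ∑ i : Fin (m + 1), x i.succ * (ι1 ⟨u i.succ, hu_mem h _⟩ - ι2 ⟨u i.succ, hu_mem h _⟩) = 0 := by
    simp only [mul_sub, Finset.sum_sub_distrib]
    rw [eq_neg_of_add_eq_zero_right e1, eq_neg_of_add_eq_zero_right e2, sub_self]
  rw [Fin.sum_univ_succ] at h3
  have h4 : (⟨u (Fin.succ 0), hu_mem h _⟩ : acl (ad A {T})) = ⟨T, hT⟩ := Subtype.ext h.hu1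
  rw [h4] at h3
  have hd : ι1 ⟨T, hT⟩ - ι2 ⟨T, hT⟩ ≠ 0 := sub_ne_zero.2 hne
  apply mul_right_cancel₀ hd
  rw [add_mul, Finset.sum_mul, zero_mul, ← h3]
  congr 1
  refine Finset.sum_congr rfl fun i _ => ?_
  rw [mul_assoc, div_mul_cancel₀ _ hd]

end

section

variable {C S : Type} [Field C] [Field S] [CharZero C] [IsAlgClosed C] [IsAlgClosed S] {φ : C →+* S}
    {A : Subfield C} {T q : C} {m : ℕ} {u : Fin (m + 2) → C} {x : Fin (m + 2) → S} {D : Subfield S}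

/-- **Pairs of independent zeros are conjugate.** -/
theorem pair (h : SD φ A T q u x D) {ι1 ι1' ι2 : acl (ad A {T}) →+* S} (h1 : SZ φ A T u x ι1)
    (h1' : SZ φ A T u x ι1') (h2 : SZ φ A T u x ι2) (hT : T ∈ acl (ad A {T})) (hq : q ∈ acl (ad A {T}))
    (ht : Transcendental (ad ((acl A).map φ) {ι2 ⟨T, hT⟩}) (ι1 ⟨T, hT⟩))
    (ht' : Transcendental (ad ((acl A).map φ) {ι2 ⟨T, hT⟩}) (ι1' ⟨T, hT⟩)) :
    ∃ σ : S ≃+* S, σ (ι1 ⟨T, hT⟩) = ι1' ⟨T, hT⟩ ∧ σ (ι1 ⟨q, hq⟩) = ι1' ⟨q, hq⟩ ∧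
      (∀ z, σ (ι2 z) = ι2 z) ∧ ∀ z ∈ gn ((acl A).map φ) x, σ z = z := by
  have hS : CharZero S := charZero_of_injective_ringHom φ.injective
  set κ := (acl A).map φ with hκ
  set R := ι2.fieldRange with hRdef
  have hκR : κ ≤ R := by
    rintro _ ⟨c, hc, rfl⟩
    exact ⟨⟨c, acl_mono le_ad hc⟩, h2.const _ hc⟩
  have hR2 : R ≤ acl (ad κ {ι2 ⟨T, hT⟩}) := by
    rintro _ ⟨z, rfl⟩
    exact iota_alg ι2 h2.const hT z
  have hta : Transcendental R (ι1 ⟨T, hT⟩) := tr_mono hR2 (tr_acl ht)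
  have hta' : Transcendental R (ι1' ⟨T, hT⟩) := tr_mono hR2 (tr_acl ht')
  have hne : ι1 ⟨T, hT⟩ ≠ ι2 ⟨T, hT⟩ := fun h0 => hta (alg_mem ⟨_, h0.symm⟩)
  have hne' : ι1' ⟨T, hT⟩ ≠ ι2 ⟨T, hT⟩ := fun h0 => hta' (alg_mem ⟨_, h0.symm⟩)
  have hkey := (ga_key (kap_indep h.hx) ι2 (fun i => ⟨u i.succ, hu_mem h _⟩) ⟨T, hT⟩
    (iota_alg ι2 h2.const hT) (rel0 h h2)).1
  obtain ⟨D0, φ0, hD0, hφ0, hφ0T⟩ := exists_emb hta hta'
  have hιK : ∀ z, ι1 z ∈ acl (ad R {ι1 ⟨T, hT⟩}) := fun z =>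
    acl_mono (ad_mono hκR le_rfl) (iota_alg ι1 h1.const hT z)
  have hK1 : acl (ad R {ι1 ⟨T, hT⟩}) ≤ D0 := fun z hz => hD0 z (mem_acl.1 hz)
  have hιD : ∀ z, ι1 z ∈ D0 := fun z => hK1 (hιK z)
  let j1 : acl (ad A {T}) →+* S := φ0.comp (ι1.codRestrict D0.toSubring hιD)
  have hj1 : ∀ z, j1 z = φ0 ⟨ι1 z, hιD z⟩ := fun _ => rfl
  have hj1c : ∀ z : acl (ad A {T}), (z : C) ∈ acl A → j1 z = φ z := by
    intro z hz
    have h3 : ((⟨ι1 z, hιD z⟩ : D0) : S) = φ z := h1.const z hz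
    rw [hj1, hφ0 _ (by rw [h3]; exact hκR ⟨z, hz, rfl⟩)]
    exact h3
  have hj1T : j1 ⟨T, hT⟩ = ι1' ⟨T, hT⟩ := hφ0T _ rfl
  -- correction of the value of `q`
  have hGj : ad κ {ι1' ⟨T, hT⟩} ≤ j1.fieldRange := by
    refine ad_le ?_ ?_
    · rintro _ ⟨c, hc, rfl⟩
      exact ⟨⟨c, acl_mono le_ad hc⟩, hj1c _ hc⟩
    · rintro _ rfl
      exact ⟨_, hj1T⟩
  have hGj' : ad κ {ι1' ⟨T, hT⟩} ≤ ι1'.fieldRange := by
    refine ad_le ?_ ?_
    · rintro _ ⟨c, hc, rfl⟩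
      exact ⟨⟨c, acl_mono le_ad hc⟩, h1'.const _ hc⟩
    · rintro _ rfl
      exact ⟨_, rfl⟩
  have hj1a : ∀ z, j1 z ∈ acl (ad κ {ι1' ⟨T, hT⟩}) := by
    intro z
    have h3 := iota_alg j1 hj1c hT z
    rwa [hj1T] at h3
  obtain ⟨θ0, hθ0⟩ := exists_aut_of j1 ι1' (ad κ {ι1' ⟨T, hT⟩}) hj1a (iota_alg ι1' h1'.const hT)
    hGj hGj'
  have hθ0G : ∀ z ∈ ad κ {ι1' ⟨T, hT⟩}, θ0 z = z := by
    refine fix_gn (σ := (θ0 : S →+* S)) (σ' := RingHom.id S) ?_ ?_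
    · rintro _ ⟨c, hc, rfl⟩
      change θ0 (φ c) = φ c
      have h3 := hθ0 ⟨c, acl_mono le_ad hc⟩
      rw [hj1c _ hc, h1'.const _ hc] at h3
      exact h3
    · rintro _ rfl
      change θ0 (ι1' ⟨T, hT⟩) = ι1' ⟨T, hT⟩
      conv_lhs => rw [← hj1T]
      exact hθ0 _
  obtain ⟨θ, hθ, hθq⟩ := lift_conj (B := ad κ {ι1' ⟨T, hT⟩}) (K' := ad R {ι1' ⟨T, hT⟩})
    (ad_mono hκR le_rfl) (gauss_ad hκR (fun z _ hz' => kap_closed hz') hta')
    (fun _ : Unit => j1 ⟨q, hq⟩) (fun _ => mem_acl.1 (hj1a _)) θ0 hθ0G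
  have hθq' : θ (j1 ⟨q, hq⟩) = ι1' ⟨q, hq⟩ := (hθq ()).trans (hθ0 _)
  have hθT : θ (ι1' ⟨T, hT⟩) = ι1' ⟨T, hT⟩ := hθ _ mem_adE
  have hθA : ∀ z : acl (ad A {T}), (z : C) ∈ ad A {T, q} → θ (j1 z) = ι1' z := by
    refine agree (k := (θ : S →+* S).comp j1) (k' := ι1') (le_ad.trans le_acl) ?_ ?_ ?_
    · rintro _ (rfl | rfl)
      · exact hT
      · exact hq
    · intro z hz
      change θ (j1 z) = _
      rw [hj1c z (le_acl hz), h1'.const z (le_acl hz)]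
      exact hθ _ (le_ad (hκR ⟨z, le_acl hz, rfl⟩))
    · rintro ⟨z, hz0⟩ hz
      change θ (j1 ⟨z, hz0⟩) = ι1' ⟨z, hz0⟩
      rcases hz with hz | hz
      · obtain rfl : z = T := hz
        rw [hj1T]
        exact hθT
      · obtain rfl : z = q := hz
        exact hθq'
  -- the embedding of the closure of `R (ι1 T)`
  let ψ : D0 →+* S := (θ : S →+* S).comp φ0
  have hψR : ∀ z : D0, (z : S) ∈ R → ψ z = z := by
    intro z hz
    change θ (φ0 z) = z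
    rw [hφ0 z hz]
    exact hθ _ (le_ad hz)
  let j : acl (ad R {ι1 ⟨T, hT⟩}) →+* S := (acl (ad R {ι1 ⟨T, hT⟩})).subtype
  let j' : acl (ad R {ι1 ⟨T, hT⟩}) →+* S := ψ.comp (Subfield.inclusion hK1)
  have hj'1 : ∀ z : acl (ad A {T}), (z : C) ∈ ad A {T, q} → j' ⟨ι1 z, hιK z⟩ = ι1' z := fun z hz =>
    hθA z hz
  have hRK : ∀ z, ι2 z ∈ acl (ad R {ι1 ⟨T, hT⟩}) := fun z => le_acl (le_ad ⟨z, rfl⟩)
  have hj'2 : ∀ z : acl (ad A {T}), j' ⟨ι2 z, hRK z⟩ = ι2 z := fun z =>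
    hψR ⟨ι2 z, hK1 (hRK z)⟩ ⟨z, rfl⟩
  have hTm : ((⟨T, hT⟩ : acl (ad A {T})) : C) ∈ ad A {T, q} := mem_ad (Or.inl rfl)
  have hqm : ((⟨q, hq⟩ : acl (ad A {T})) : C) ∈ ad A {T, q} := mem_ad (Or.inr rfl)
  have hj't : j' ⟨ι1 ⟨T, hT⟩, hιK _⟩ = ι1' ⟨T, hT⟩ := hj'1 _ hTm
  let c : Fin m → acl (ad R {ι1 ⟨T, hT⟩}) := fun i =>
    (⟨ι1 ⟨u i.succ.succ, hu_mem h _⟩, hιK _⟩ - ⟨ι2 ⟨u i.succ.succ, hu_mem h _⟩, hRK _⟩) /
      (⟨ι1 ⟨T, hT⟩, hιK _⟩ - ⟨ι2 ⟨T, hT⟩, hRK _⟩)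
  have hj'c : ∀ i, j' (c i) = (ι1' ⟨u i.succ.succ, hu_mem h _⟩ - ι2 ⟨u i.succ.succ, hu_mem h _⟩) /
      (ι1' ⟨T, hT⟩ - ι2 ⟨T, hT⟩) := by
    intro i
    rw [map_div₀, map_sub, map_sub, hj'2, hj'2, hj't, hj'1 _ (h.hu _)]
  obtain ⟨σ, hσ, hσy⟩ := ga_abs hkey j j' c ⟨ι1 ⟨T, hT⟩, hιK _⟩ (fun z => z.2) (fun z => by
      refine mem_acl.2 (alg_map' j' (fun y hy => ?_) (alg_comap (K := ad R {ι1 ⟨T, hT⟩}) le_acl
        (mem_acl.1 z.2)))
      refine emb_ad ψ (E := R) (L := ad R {j' ⟨ι1 ⟨T, hT⟩, hιK _⟩}) (X := {ι1 ⟨T, hT⟩})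
        (le_ad.trans (le_acl.trans hK1)) ?_ ?_ ?_ ⟨y, hK1 y.2⟩ hy
      · rintro _ rfl
        exact hιD _
      · intro z hz
        rw [hψR z hz]
        exact le_ad hz
      · rintro ⟨z, hz0⟩ hz
        obtain rfl : z = ι1 ⟨T, hT⟩ := hz
        exact mem_adE)
    (fun r hr => ⟨⟨r, le_acl (le_ad hr)⟩, rfl, hψR ⟨r, hK1 (le_acl (le_ad hr))⟩ hr⟩)
    (rel_diff h h1 h2 hT hne)
    (by
      simp only [hj'c]
      exact rel_diff h h1' h2 hT hne')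
  refine ⟨σ, ?_, ?_, fun z => ?_, fun z hz => ?_⟩
  · exact (hσ ⟨ι1 ⟨T, hT⟩, hιK _⟩).trans hj't
  · exact (hσ ⟨ι1 ⟨q, hq⟩, hιK _⟩).trans (hj'1 _ hqm)
  · exact hσy _ (le_gn ⟨z, rfl⟩)
  · refine hσy z ((?_ : gn κ x ≤ _) hz)
    refine gn_le (hκR.trans le_gn) fun i => ?_
    refine Fin.cases ?_ (fun i => mem_gn i) i
    rw [eq_neg_of_add_eq_zero_left (rel0 h h2)]
    exact neg_mem (sum_mem fun i _ => mul_mem (mem_gn i) (le_gn ⟨_, rfl⟩))

/-- independent pairs -/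
theorem tr_of_pair {K : Subfield S} {a b : S} (h : AlgebraicIndependent K ![a, b]) :
    Transcendental (ad K {b}) a ∧ Transcendental (ad K {a}) b := by
  have h1 : AlgebraicIndependent K (Sum.elim (fun _ : Unit => a) (fun _ : Unit => b)) := by
    have h2 := h.comp (Sum.elim (fun _ : Unit => (0 : Fin 2)) (fun _ : Unit => (1 : Fin 2))) (by
      rintro (i | i) (j | j) hij
      · rfl
      · exact absurd hij (by simp)
      · exact absurd hij (by simp)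
      · rfl)
    convert h2 using 1
    funext i
    rcases i with i | i <;> rfl
  have h2 := (indep_sum_iff.1 h1).2
  have h3 := (indep_sum_iff.1 (indep_swap h1)).2
  rw [gn_one] at h2 h3
  exact ⟨indep_one.1 h2, indep_one.1 h3⟩

end

/-- **Block BE.** -/
theorem stmtBE : StmtBE := by
  intro C S _ _ _ _ _ φ A T q m u x D h hreg hT hq ι hι hind y hy
  have hS : CharZero S := charZero_of_injective_ringHom φ.injective
  have hGD : gn (A.map φ) x ≤ D := gn_le h.hAD h.hxD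
  have hyalg : IsAlgebraic D y := by
    refine mem_acl.1 ((ad_le le_acl ?_ : ad D {ι 0 ⟨T, hT⟩, ι 0 ⟨q, hq⟩} ≤ acl D) (hy 0))
    rintro _ (rfl | rfl)
    · exact acl_mono hGD (mem_acl.2 (alg_val h (hι 0) _))
    · exact acl_mono hGD (mem_acl.2 (alg_val h (hι 0) _))
  refine mem_of_fixed hyalg fun g hg => ?_
  obtain ⟨ι', hι', hιg⟩ := ext_hom h hreg (hι 0) g hg
  have hTm : ((⟨T, hT⟩ : acl (ad A {T})) : C) ∈ ad A {T, q} := mem_ad (Or.inl rfl)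
  have hqm : ((⟨q, hq⟩ : acl (ad A {T})) : C) ∈ ad A {T, q} := mem_ad (Or.inr rfl)
  have htr : ∀ i i', i ≠ i' → Transcendental (ad ((acl A).map φ) {ι i' ⟨T, hT⟩}) (ι i ⟨T, hT⟩) :=
    fun i i' hii => (tr_of_pair (kap_indep (hind i i' hii))).1
  obtain ⟨i, hi0, hi⟩ : ∃ i : Fin 3, i ≠ 0 ∧
      Transcendental (ad ((acl A).map φ) {ι i ⟨T, hT⟩}) (ι' ⟨T, hT⟩) := by
    by_contra hcon
    push Not at hcon
    have h1 : IsAlgebraic (ad ((acl A).map φ) {ι 1 ⟨T, hT⟩}) (ι' ⟨T, hT⟩) := by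
      have := hcon 1 (by decide)
      rwa [Transcendental, not_not] at this
    have h2 : IsAlgebraic (ad ((acl A).map φ) {ι 2 ⟨T, hT⟩}) (ι' ⟨T, hT⟩) := by
      have := hcon 2 (by decide)
      rwa [Transcendental, not_not] at this
    have h3 : IsAlgebraic (ad ((acl A).map φ) {ι' ⟨T, hT⟩}) (ι 1 ⟨T, hT⟩) := by
      by_contra h4
      exact exch (tr_val h hι' hT) h4 h1
    have h4 : ι 1 ⟨T, hT⟩ ∈ acl (ad ((acl A).map φ) {ι 2 ⟨T, hT⟩}) := by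
      refine acl_le (ad_le (le_ad.trans le_acl) ?_) (mem_acl.2 h3)
      rintro _ rfl
      exact mem_acl.2 h2
    exact htr 1 2 (by decide) (mem_acl.1 h4)
  obtain ⟨σ, hσT, hσq, hσ2, hσx⟩ := pair h (hι 0) hι' (hι i) hT hq (htr 0 i hi0.symm) hi
  obtain ⟨τ, hτ, hτb⟩ := lift_D h ![ι 0 ⟨T, hT⟩, ι 0 ⟨q, hq⟩, ι i ⟨T, hT⟩, ι i ⟨q, hq⟩]
    (by
      intro l
      fin_cases l
      · exact alg_val h (hι 0) _
      · exact alg_val h (hι 0) _
      · exact alg_val h (hι i) _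
      · exact alg_val h (hι i) _) σ hσx
  have e0 : τ (ι 0 ⟨T, hT⟩) = g (ι 0 ⟨T, hT⟩) := (hτb 0).trans (hσT.trans (hιg _ hTm))
  have e1 : τ (ι 0 ⟨q, hq⟩) = g (ι 0 ⟨q, hq⟩) := (hτb 1).trans (hσq.trans (hιg _ hqm))
  have e2 : τ (ι i ⟨T, hT⟩) = ι i ⟨T, hT⟩ := (hτb 2).trans (hσ2 _)
  have e3 : τ (ι i ⟨q, hq⟩) = ι i ⟨q, hq⟩ := (hτb 3).trans (hσ2 _)
  have h1 : τ y = g y := by
    refine fix_gn (σ := (τ : S →+* S)) (σ' := (g : S →+* S)) (fun z hz => ?_) ?_ y (hy 0)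
    · exact (hτ z hz).trans (hg z hz).symm
    · rintro _ (rfl | rfl)
      · exact e0
      · exact e1
  have h2 : τ y = y := by
    refine fix_gn (σ := (τ : S →+* S)) (σ' := RingHom.id S) (fun z hz => hτ z hz) ?_ y (hy i)
    rintro _ (rfl | rfl)
    · exact e2
    · exact e3
  rw [← h1, h2]

end Pool.Agent.FF40
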