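import Pool.Agent.Helper40.FF.BE

/-!
# Project FF: block EXT (a finite extension of the small field)
-/

set_option autoImplicit false

universe u

namespace Pool.Agent.FF40

open Polynomial Pool.Agent.LT Pool.Agent.Helper37.UL UL Pool.Agent.OPN Pool.Agent.OPG _root_.TW Pool.Agent.TWT
  Pool.Agent.FFX

/-- Linear disjointness over a relatively algebraically closed subfield. -/
theorem ad_relClosed {S : Type u} [Field S] [CharZero S] {B D : Subfield S} (hBD : B ≤ D)
    (hrel : ∀ z ∈ D, IsAlgebraic B z → z ∈ B) {X : Set S} (hX : ∀ z ∈ X, IsAlgebraic B z) {b : S}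
    (hb : IsAlgebraic B b) (hbD : b ∈ ad D X) : b ∈ ad B X := by
  let _ : Algebra B D := (Subfield.inclusion hBD).toAlgebra
  have hst : IsScalarTower B D S := IsScalarTower.of_algebraMap_eq fun _ => rfl
  have h0 : CharZero B := inferInstance
  refine mem_adjoin_iff.1 (RR.mem_adjoin_of_relClosed (L := B) (Fs := D) ?_ hX hb
    (mem_adjoin_iff.2 hbD))
  intro z hz
  exact ⟨⟨z, hrel z z.2 (hz.algebraMap (A := S))⟩, rfl⟩

/-- germs with values in a finite extension -/
theorem fsub_adX {C : Type} [Field C] {J : Type} {U : Ultrafilter J} {S : Type} [Field S]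
    {π : (J → C) →+* S} (h : UP U π) {Y : J → Subfield C} (X : Finset C)
    (hX : ∀ z ∈ X, IsAlgebraic (h.fsub Y) (UP.cst π z)) :
    h.fsub (fun j => ad (Y j) (X : Set C)) ≤ ad (h.fsub Y) (UP.cst π '' (X : Set C)) := by
  classical
  induction X using Finset.induction_on with
  | empty =>
    rintro _ ⟨y, hy, rfl⟩
    refine le_ad ⟨y, fun j => ?_, rfl⟩
    refine (ad_le le_rfl ?_ : ad (Y j) ((∅ : Finset C) : Set C) ≤ Y j) (hy j)
    intro z hz
    simp at hz
  | insert z X _ ih =>
    have ih' := ih fun w hw => hX w (Finset.mem_insert_of_mem hw)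
    have h1 : ∀ j, ad (Y j) ((insert z X : Finset C) : Set C) = ad (ad (Y j) (X : Set C)) {z} := by
      intro j
      rw [ad_ad, Finset.coe_insert, Set.union_comm, Set.singleton_union]
    have h2 : h.fsub Y ≤ h.fsub (fun j => ad (Y j) (X : Set C)) := by
      rintro _ ⟨y, hy, rfl⟩
      exact ⟨y, fun j => le_ad (hy j), rfl⟩
    have h3 := fsub_ad h (Y := fun j => ad (Y j) (X : Set C)) (f := fun _ => z)
      (isAlgebraic_mono h2 (hX z (Finset.mem_insert_self z X)))
    rintro _ ⟨y, hy, rfl⟩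
    have h4 : π y ∈ h.fsub (fun j => ad (ad (Y j) (X : Set C)) {z}) :=
      ⟨y, fun j => (h1 j).le (hy j), rfl⟩
    have h5 : ad (ad (h.fsub Y) (UP.cst π '' (X : Set C))) {UP.cst π z} =
        ad (h.fsub Y) (UP.cst π '' ((insert z X : Finset C) : Set C)) := by
      rw [ad_ad, Finset.coe_insert, Set.image_insert_eq, Set.union_comm, Set.singleton_union]
    rw [← h5]
    exact ad_mono ih' le_rfl (h3 h4)

theorem acl_ad {C : Type u} [Field C] {A : Subfield C} {X : Set C} (hX : ∀ z ∈ X, z ∈ acl A) :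
    acl (ad A X) = acl A :=
  le_antisymm (acl_le (ad_le le_acl hX)) (acl_mono le_ad)

/-- **Block EXT.** -/
theorem stmtEXT : StmtEXT := by
  intro E C _ _ _ _ _ _ A T q m J U S _ π h a Fv u hs X hX q' hq' hqq
  have hSa : IsAlgClosed S := h.isAlgClosed
  have hC0 : CharZero C := charZero_of_injective_algebraMap (algebraMap E C).injective
  have hS0 : CharZero S := charZero_of_injective_ringHom (UP.cst π).injective
  have hXE : ∀ z ∈ X, z ∈ (algebraMap E C).fieldRange := fun z hz => acl_range hs.hA (hX z hz)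
  have hXs : ∀ z ∈ (X : Set C), z ∈ acl A := fun z hz => hX z hz
  have hadA : ad A (X : Set C) ≤ acl A := ad_le le_acl hXs
  have hk : (ad A (X : Set C)).map (UP.cst π) ≤ (acl A).map (UP.cst π) := by
    rintro _ ⟨z, hz, rfl⟩
    exact ⟨z, hadA hz, rfl⟩
  have hAD : A.map (UP.cst π) ≤ h.fsub Fv := by
    rintro _ ⟨z, hz, rfl⟩
    exact ⟨fun _ => z, fun j => hs.hAFv j hz, rfl⟩
  have hxD : ∀ e, xg π (fun j e => algebraMap E C (a j e)) e ∈ h.fsub Fv := fun e =>
    ⟨fun j => algebraMap E C (a j e), fun j => hs.haFv j e, rfl⟩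
  have hGD : gn (A.map (UP.cst π)) (xg π fun j e => algebraMap E C (a j e)) ≤ h.fsub Fv :=
    gn_le hAD hxD
  have hXalg : ∀ z ∈ (UP.cst π '' (X : Set C)), z ∈ acl (A.map (UP.cst π)) := by
    rintro _ ⟨z, hz, rfl⟩
    exact kap_le ⟨z, hX z hz, rfl⟩
  refine
    { hA := ad_le hs.hA hXE
      hT := hs.hT
      halg := hs.halg
      hq := ?_
      hx := indep_mono hk (kap_indep hs.hx)
      hAFv := fun j => ad_mono (hs.hAFv j) le_rfl
      hFv := fun j => ad_le (hs.hFv j) hXE
      haFv := fun j e => le_ad (hs.haFv j e)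
      hwr := ?_
      hu0 := hs.hu0
      hu1 := hs.hu1
      hu := fun e => ?_ }
  · exact isAlgebraic_mono (ad_mono le_ad le_rfl) (mem_acl.1 hq')
  · intro z hz hza
    rw [acl_ad hXs]
    set x := xg π fun j e => algebraMap E C (a j e) with hx
    have h1 : z ∈ ad (h.fsub Fv) (UP.cst π '' (X : Set C)) := by
      refine fsub_adX h X (fun w hw => ?_) hz
      exact isAlgebraic_mono hAD (mem_acl.1 (hXalg _ ⟨w, hw, rfl⟩))
    have h2 : z ∈ acl (gn (A.map (UP.cst π)) x) := by
      refine acl_le ?_ (mem_acl.2 hza)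
      exact gn_le (hk.trans (kap_le.trans (acl_mono le_gn))) fun e => le_acl (mem_gn e)
    have h3 : z ∈ ad (h.fsub Fv ⊓ acl (gn (A.map (UP.cst π)) x)) (UP.cst π '' (X : Set C)) := by
      refine ad_relClosed inf_le_left ?_ ?_ ?_ h1
      · intro y hy hy'
        exact ⟨hy, acl_closed (isAlgebraic_mono inf_le_right hy')⟩
      · intro y hy
        refine isAlgebraic_mono ?_ (mem_acl.1 (hXalg y hy))
        exact le_inf hAD (le_gn.trans le_acl)
      · exact isAlgebraic_mono (le_inf hGD le_acl) (mem_acl.1 h2)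
    refine (ad_le ?_ ?_ : _ ≤ gn ((acl A).map (UP.cst π)) x) h3
    · rintro y ⟨hy, hy'⟩
      exact hs.hwr y hy (mem_acl.1 hy')
    · rintro _ ⟨w, hw, rfl⟩
      exact le_gn ⟨w, hX w hw, rfl⟩
  · refine (ad_le (le_ad.trans le_ad) ?_ : ad A {T, q} ≤ _) (hs.hu e)
    rintro _ (rfl | rfl)
    · exact mem_ad (Or.inl rfl)
    · exact hqq

end Pool.Agent.FF40
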