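import Pool.Agent.Helper10.TWT.A6

/-!
# Project FF: homogeneity of algebraically closed fields, and generic hyperplane sections
-/

universe u v w

namespace Pool.Agent.FF40

open Polynomial Pool.Agent.Helper37.UL UL Pool.Agent.OPN Pool.Agent.OPG Pool.Agent.TWT

/-- **Tool 1.**  Two embeddings of `F` with the same algebraic closure of the image. -/
theorem exists_aut_of {S : Type u} [Field S] [IsAlgClosed S] {F : Type u} [Field F] (j j' : F →+* S)
    (G : Subfield S) (hj : ∀ z, j z ∈ acl G) (hj' : ∀ z, j' z ∈ acl G)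
    (h : G ≤ j.fieldRange) (h' : G ≤ j'.fieldRange) :
    ∃ σ : S ≃+* S, ∀ z, σ (j z) = j' z := by
  classical
  let Om := algebraicClosure G S
  have hOm : IsAlgClosed Om := (algebraicClosure.isAlgClosure G S).isAlgClosed
  have hmem : ∀ z : S, z ∈ acl G ↔ z ∈ Om := fun _ => Iff.rfl
  let jO : F →+* Om := j.codRestrict Om.toSubring fun z => hj z
  let i1 : Algebra F Om := jO.toAlgebra
  let i2 : Algebra F S := j'.toAlgebra
  have halg : Algebra.IsAlgebraic F Om := by
    constructor
    intro z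
    have h1 : IsAlgebraic G (z : S) := mem_algebraicClosure_iff.1 z.2
    obtain ⟨P, hP0, hP⟩ := h1
    have h2 : ∀ g : G, ∃ f : F, j f = g := fun g => h g.2
    choose f hf using h2
    let fh : G →+* F :=
      { toFun := f
        map_one' := j.injective (by rw [hf, map_one]; rfl)
        map_mul' := fun a b => j.injective (by rw [hf, map_mul, hf, hf]; rfl)
        map_zero' := j.injective (by rw [hf, map_zero]; rfl)
        map_add' := fun a b => j.injective (by rw [hf, map_add, hf, hf]; rfl) }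
    refine ⟨P.map fh, (Polynomial.map_ne_zero_iff fh.injective).2 hP0, ?_⟩
    apply (algebraMap Om S).injective
    rw [map_zero, aeval_def, eval₂_map, hom_eval₂]
    rw [aeval_def] at hP
    rw [← hP]
    congr 1
    refine RingHom.ext fun g => ?_
    exact hf g
  let g : Om →ₐ[F] S := IsAlgClosed.lift
  have hg : ∀ z : F, g (jO z) = j' z := fun z => g.commutes z
  have hgmem : ∀ z : Om, g z ∈ acl G := by
    intro z
    have h1 : IsAlgebraic F z := Algebra.IsAlgebraic.isAlgebraic z
    have h2 : IsAlgebraic F (g z) := h1.algHom g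
    have h3 : IsAlgebraic (algebraMap F S).fieldRange (g z) := Pool.Agent.TD.isAlgebraic_range_iff.2 h2
    refine acl_closed (isAlgebraic_mono ?_ h3)
    rintro _ ⟨c, rfl⟩
    exact hj' c
  let gO : Om →+* Om := (g : Om →+* S).codRestrict Om.toSubring hgmem
  have hgO : ∀ z, (gO z : S) = g z := fun _ => rfl
  have hsurj : Function.Surjective gO := by
    intro w
    have h1 : IsAlgebraic G (w : S) := mem_algebraicClosure_iff.1 w.2
    let R := (g : Om →+* S).fieldRange
    have hGR : G ≤ R := by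
      intro z hz
      obtain ⟨c, hc⟩ := h' hz
      exact ⟨jO c, (hg c).trans hc⟩
    have hR : IsAlgClosed R := by
      let e : Om ≃+* R := RingEquiv.ofBijective (g : Om →+* S).rangeRestrictField
        ⟨(g : Om →+* S).rangeRestrictField.injective, fun ⟨_, c, hc⟩ => ⟨c, Subtype.ext hc⟩⟩
      exact IsAlgClosed.of_ringEquiv _ _ e
    have h2 : IsAlgebraic R (w : S) := isAlgebraic_mono hGR h1
    have h3 : (w : S) ∈ R := by
      have h4 := IsAlgClosed.degree_eq_one_of_irreducible R (minpoly.irreducible h2.isIntegral)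
      obtain ⟨r, hr⟩ := minpoly.mem_range_of_degree_eq_one R (w : S) h4
      rw [← hr]
      exact r.2
    obtain ⟨z, hz⟩ := h3
    exact ⟨z, Subtype.ext hz⟩
  let e : Om ≃+* Om := RingEquiv.ofBijective gO ⟨gO.injective, hsurj⟩
  obtain ⟨σ, hσ⟩ := extend_aut (K := G) (C := S) e
  refine ⟨σ, fun z => ?_⟩
  rw [← hg z]
  exact hσ (jO z)

/-- **Tool 2.**  Extension to the field generated by independent elements. -/
theorem exists_ext {S : Type u} [Field S] {F : Type v} [Field F] (j : F →+* S) {n : ℕ} {w : Fin n → S}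
    (hw : AlgebraicIndependent j.fieldRange w) :
    ∃ J : FractionRing (MvPolynomial (Fin n) F) →+* S,
      (∀ z, J (algebraMap (MvPolynomial (Fin n) F) _ (MvPolynomial.C z)) = j z) ∧
      (∀ i, J (algebraMap (MvPolynomial (Fin n) F) _ (MvPolynomial.X i)) = w i) ∧
      ∀ L : Subfield S, (∀ z, j z ∈ L) → (∀ i, w i ∈ L) → ∀ z, J z ∈ L := by
  let i1 : Algebra F S := j.toAlgebra
  have hw' : AlgebraicIndependent F w := ind_range.1 hw
  have hinj : Function.Injective (MvPolynomial.aeval w : MvPolynomial (Fin n) F →ₐ[F] S) := hw'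
  let g : MvPolynomial (Fin n) F →+* S := (MvPolynomial.aeval w : MvPolynomial (Fin n) F →ₐ[F] S)
  have hg : Function.Injective g := hinj
  refine ⟨IsFractionRing.lift hg, fun z => ?_, fun i => ?_, fun L h1 h2 z => ?_⟩
  · rw [IsFractionRing.lift_algebraMap]
    exact MvPolynomial.aeval_C w z
  · rw [IsFractionRing.lift_algebraMap]
    exact MvPolynomial.aeval_X w i
  · have h3 : ∀ p : MvPolynomial (Fin n) F, g p ∈ L := by
      intro p
      induction p using MvPolynomial.induction_on with
      | C a =>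
        have h4 : g (MvPolynomial.C a) = j a := MvPolynomial.aeval_C w a
        rw [h4]
        exact h1 a
      | add p q hp hq =>
        rw [map_add]
        exact add_mem hp hq
      | mul_X p i hp =>
        have h4 : g (MvPolynomial.X i) = w i := MvPolynomial.aeval_X w i
        rw [map_mul, h4]
        exact mul_mem hp (h2 i)
    obtain ⟨a, b, -, rfl⟩ := IsFractionRing.div_surjective (A := MvPolynomial (Fin n) F) z
    rw [map_div₀, IsFractionRing.lift_algebraMap, IsFractionRing.lift_algebraMap]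
    exact div_mem (h3 a) (h3 b)

/-- The elements fixed by an automorphism form a subfield. -/
theorem fix_gn {S : Type u} [Field S] {σ σ' : S →+* S} {K : Subfield S} {X : Set S} (h : ∀ z ∈ K, σ z = σ' z)
    (h' : ∀ z ∈ X, σ z = σ' z) : ∀ z ∈ ad K X, σ z = σ' z := by
  have h1 : ad K X ≤ RingHom.eqLocusField σ σ' := ad_le h h'
  exact fun z hz => h1 hz

theorem ad_range {S : Type u} [Field S] {K : Subfield S} {n : ℕ} {w : Fin n → S} : gn K w = ad K (Set.range w) := rfl

/-- Independence over the field of an embedding with a linear relation. -/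
theorem ga_key {S : Type u} [Field S] {R : Subfield S} {n : ℕ} {y : Fin (n + 1) → S}
    (hy : AlgebraicIndependent R y) {F : Type v} [Field F] (k : F →+* S) (c : Fin n → F) (t : F)
    (hk : ∀ z, k z ∈ acl (ad R {k t})) (hrelk : y 0 + ∑ i, y i.succ * k (c i) = 0) :
    AlgebraicIndependent k.fieldRange (fun i : Fin n => y i.succ) ∧ k t ∈ acl (gn R y) := by
  have hc : ∀ i, IsAlgebraic (IntermediateField.adjoin R {k t}) (k (c i)) := fun i =>
    alg_adjoin_iff.2 (mem_acl.1 (hk (c i)))
  obtain ⟨-, h2⟩ := TW.tau_tr_W hy hrelk hc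
  have h3 := TW.tau_alg_W hy hrelk hc
  constructor
  · have h4 : AlgebraicIndependent (IntermediateField.adjoin R {k t}).toSubfield
        (fun i : Fin n => y i.succ) := h2
    have h5 : AlgebraicIndependent (ad R {k t}) (fun i : Fin n => y i.succ) :=
      indep_congr adjoin_ad h4
    refine indep_mono ?_ (indep_acl h5)
    rintro _ ⟨z, rfl⟩
    exact hk z
  · rw [mem_acl]
    exact alg_adjoin_iff.1 h3

/-- **The generic hyperplane section.**  Two embeddings of `F`, algebraic over `R(j t)`, with the same linear relation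
with independent coefficients. -/
theorem ga_abs {S : Type u} [Field S] [IsAlgClosed S] {R : Subfield S} {n : ℕ} {y : Fin (n + 1) → S}
    (hy : AlgebraicIndependent R y) {F : Type u} [Field F] (j j' : F →+* S) (c : Fin n → F) (t : F)
    (hj : ∀ z, j z ∈ acl (ad R {j t})) (hj' : ∀ z, j' z ∈ acl (ad R {j' t}))
    (hR : ∀ r ∈ R, ∃ z, j z = r ∧ j' z = r) (hrel : y 0 + ∑ i, y i.succ * j (c i) = 0)
    (hrel' : y 0 + ∑ i, y i.succ * j' (c i) = 0) :
    ∃ σ : S ≃+* S, (∀ z, σ (j z) = j' z) ∧ ∀ z ∈ gn R y, σ z = z := by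
  obtain ⟨hi, ht⟩ := ga_key hy j c t hj hrel
  obtain ⟨hi', ht'⟩ := ga_key hy j' c t hj' hrel'
  obtain ⟨J, hJC, hJX, hJL⟩ := exists_ext j hi
  obtain ⟨J', hJC', hJX', hJL'⟩ := exists_ext j' hi'
  have hrange : ∀ (k : F →+* S) (Jk : FractionRing (MvPolynomial (Fin n) F) →+* S),
      (∀ z, Jk (algebraMap (MvPolynomial (Fin n) F) _ (MvPolynomial.C z)) = k z) →
      (∀ i, Jk (algebraMap (MvPolynomial (Fin n) F) _ (MvPolynomial.X i)) = y i.succ) →
      y 0 + ∑ i, y i.succ * k (c i) = 0 → (∀ r ∈ R, ∃ z, k z = r) → gn R y ≤ Jk.fieldRange := by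
    intro k Jk h1 h2 h3 h4
    refine gn_le (fun r hr => ?_) fun i => ?_
    · obtain ⟨z, hz⟩ := h4 r hr
      exact ⟨_, (h1 z).trans hz⟩
    · refine Fin.cases ?_ (fun i => ⟨_, h2 i⟩) i
      rw [eq_neg_of_add_eq_zero_left h3]
      exact neg_mem (sum_mem fun i _ => mul_mem ⟨_, h2 i⟩ ⟨_, h1 (c i)⟩)
  have hacl : ∀ (k : F →+* S), k t ∈ acl (gn R y) → acl (ad R {k t}) ≤ acl (gn R y) := by
    intro k hk
    refine acl_le (ad_le (le_gn.trans le_acl) ?_)
    rintro _ rfl
    exact hk
  obtain ⟨σ, hσ⟩ := exists_aut_of J J' (gn R y)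
    (hJL _ (fun z => hacl j ht (hj z)) fun i => le_acl (mem_gn _))
    (hJL' _ (fun z => hacl j' ht' (hj' z)) fun i => le_acl (mem_gn _))
    (hrange j J hJC hJX hrel fun r hr => (hR r hr).imp fun _ h => h.1)
    (hrange j' J' hJC' hJX' hrel' fun r hr => (hR r hr).imp fun _ h => h.2)
  have h1 : ∀ z, σ (j z) = j' z := fun z => by rw [← hJC, hσ, hJC']
  have h2 : ∀ i : Fin n, σ (y i.succ) = y i.succ := fun i => by
    conv_lhs => rw [← hJX i]
    rw [hσ, hJX']
  have h3 : σ (y 0) = y 0 := by
    conv_lhs => rw [eq_neg_of_add_eq_zero_left hrel]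
    rw [eq_neg_of_add_eq_zero_left hrel', map_neg, map_sum]
    congr 1
    exact Finset.sum_congr rfl fun i _ => by rw [map_mul, h1, h2]
  refine ⟨σ, h1, ?_⟩
  refine fix_gn (σ := (σ : S →+* S)) (σ' := RingHom.id S) (fun r hr => ?_) ?_
  · obtain ⟨z, hz, hz'⟩ := hR r hr
    change σ r = r
    conv_lhs => rw [← hz]
    rw [h1, hz']
  · rintro _ ⟨i, rfl⟩
    change σ (y i) = y i
    exact Fin.cases h3 h2 i

end Pool.Agent.FF40
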