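import Pool.Agent.Helper40.FF.BE

/-!
# Project FF: existence of zeros (Lemma Z)
-/

set_option autoImplicit false

universe u v

namespace Pool.Agent.FF40

open Polynomial Pool.Agent.Helper37.UL UL Pool.Agent.OPN Pool.Agent.OPG Pool.Agent.TWT Pool.Agent.FFX

/-- Two embeddings of `F` such that the algebraic closures of the images are equal. -/
theorem exists_aut_of2 {S : Type u} [Field S] [IsAlgClosed S] {F : Type u} [Field F] (j j' : F →+* S)
    (G : Subfield S) (hj : ∀ z, j z ∈ acl G) (hj' : ∀ z, j' z ∈ acl G)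
    (h : G ≤ acl j.fieldRange) (h' : G ≤ acl j'.fieldRange) :
    ∃ σ : S ≃+* S, ∀ z, σ (j z) = j' z := by
  classical
  let Om := algebraicClosure G S
  have hOm : IsAlgClosed Om := (algebraicClosure.isAlgClosure G S).isAlgClosed
  have hmem : ∀ z : S, z ∈ acl G ↔ z ∈ Om := fun _ => Iff.rfl
  let jO : F →+* Om := j.codRestrict Om.toSubring fun z => hj z
  let i1 : Algebra F Om := jO.toAlgebra
  let i2 : Algebra F S := j'.toAlgebra
  have halg : Algebra.IsAlgebraic F Om := by
    constructor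
    intro z
    have h1 : IsAlgebraic j.fieldRange (z : S) := mem_acl.1 (acl_le h z.2)
    let i3 : Algebra F S := j.toAlgebra
    have h2 : IsAlgebraic F (z : S) := Pool.Agent.TD.isAlgebraic_range_iff.1 h1
    obtain ⟨P, hP0, hP⟩ := h2
    refine ⟨P, hP0, ?_⟩
    apply (algebraMap Om S).injective
    rw [map_zero, aeval_def, hom_eval₂]
    rw [aeval_def] at hP
    exact hP
  let g : Om →ₐ[F] S := IsAlgClosed.lift
  have hg : ∀ z : F, g (jO z) = j' z := fun z => g.commutes z
  have hgmem : ∀ z : Om, g z ∈ acl G := by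
    intro z
    have h1 : IsAlgebraic F z := Algebra.IsAlgebraic.isAlgebraic z
    have h2 : IsAlgebraic F (g z) := h1.algHom g
    have h3 : IsAlgebraic (algebraMap F S).fieldRange (g z) := Pool.Agent.TD.isAlgebraic_range_iff.2 h2
    refine acl_closed (isAlgebraic_mono ?_ h3)
    rintro _ ⟨c, rfl⟩
    exact hj' c
  let gO : Om →+* Om := (g : Om →+* S).codRestrict Om.toSubring hgmem
  have hgO : ∀ z, (gO z : S) = g z := fun _ => rfl
  have hsurj : Function.Surjective gO := by
    intro w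
    let R := (g : Om →+* S).fieldRange
    have hjR : j'.fieldRange ≤ R := by
      rintro _ ⟨c, rfl⟩
      exact ⟨jO c, hg c⟩
    have hR : IsAlgClosed R := by
      let e : Om ≃+* R := RingEquiv.ofBijective (g : Om →+* S).rangeRestrictField
        ⟨(g : Om →+* S).rangeRestrictField.injective, fun ⟨_, c, hc⟩ => ⟨c, Subtype.ext hc⟩⟩
      exact IsAlgClosed.of_ringEquiv _ _ e
    have h2 : IsAlgebraic R (w : S) := isAlgebraic_mono hjR (mem_acl.1 (acl_le h' w.2))
    have h3 : (w : S) ∈ R := by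
      have h4 := IsAlgClosed.degree_eq_one_of_irreducible R (minpoly.irreducible h2.isIntegral)
      obtain ⟨r, hr⟩ := minpoly.mem_range_of_degree_eq_one R (w : S) h4
      rw [← hr]
      exact r.2
    obtain ⟨z, hz⟩ := h3
    exact ⟨z, Subtype.ext hz⟩
  let e : Om ≃+* Om := RingEquiv.ofBijective gO ⟨gO.injective, hsurj⟩
  obtain ⟨σ, hσ⟩ := extend_aut (K := G) (C := S) e
  refine ⟨σ, fun z => ?_⟩
  rw [← hg z]
  exact hσ (jO z)

/-- Homogeneity for two independent families with the same algebraic closure. -/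
theorem exists_aut_fam {S : Type u} [Field S] [IsAlgClosed S] {R : Subfield S} {n : ℕ} {x y : Fin n → S}
    (hx : AlgebraicIndependent R x) (hy : AlgebraicIndependent R y) (hxy : ∀ i, x i ∈ acl (gn R y))
    (hyx : ∀ i, y i ∈ acl (gn R x)) :
    ∃ σ : S ≃+* S, (∀ z ∈ R, σ z = z) ∧ ∀ i, σ (x i) = y i := by
  have hr : R.subtype.fieldRange = R := by
    ext z
    exact ⟨fun ⟨c, hc⟩ => hc ▸ c.2, fun hz => ⟨⟨z, hz⟩, rfl⟩⟩
  obtain ⟨J, hJC, hJX, hJL⟩ := exists_ext R.subtype (w := x) (indep_congr hr.symm hx)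
  obtain ⟨J', hJC', hJX', hJL'⟩ := exists_ext R.subtype (w := y) (indep_congr hr.symm hy)
  have hJr : gn R x ≤ J.fieldRange := gn_le (fun z hz => ⟨_, hJC ⟨z, hz⟩⟩) fun i => ⟨_, hJX i⟩
  have hJr' : gn R y ≤ J'.fieldRange := gn_le (fun z hz => ⟨_, hJC' ⟨z, hz⟩⟩) fun i => ⟨_, hJX' i⟩
  obtain ⟨σ, hσ⟩ := exists_aut_of2 J J' (gn R x)
    (hJL _ (fun z => le_acl (le_gn z.2)) fun i => le_acl (mem_gn i))
    (hJL' _ (fun z => le_acl (le_gn z.2)) fun i => hyx i)
    (hJr.trans le_acl)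
    ((gn_le (le_gn.trans le_acl) hxy).trans (acl_mono hJr'))
  refine ⟨σ, fun z hz => ?_, fun i => ?_⟩
  · have h1 := hσ (algebraMap (MvPolynomial (Fin n) R) _ (MvPolynomial.C ⟨z, hz⟩))
    rw [hJC, hJC'] at h1
    exact h1
  · rw [← hJX i, hσ, hJX']

theorem indep_cons {S : Type u} [Field S] {R : Subfield S} {n : ℕ} {a : S} {b : Fin n → S}
    (hb : AlgebraicIndependent R b) (ha : Transcendental (gn R b) a) :
    AlgebraicIndependent R (Fin.cons a b : Fin (n + 1) → S) := by
  have h1 : AlgebraicIndependent R (Sum.elim (fun _ : Unit => a) b) :=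
    indep_sum_iff.2 ⟨hb, indep_one.2 ha⟩
  have h2 := h1.comp (fun i : Fin (n + 1) => Fin.cases (Sum.inl ()) (fun i => Sum.inr i) i) (by
    intro i j
    refine Fin.cases (Fin.cases (fun _ => rfl) (fun j h => ?_) j)
      (fun i => Fin.cases (fun h => ?_) (fun j h => ?_) j) i
    · simp at h
    · simp at h
    · simp only [Fin.cases_succ, Sum.inr.injEq] at h
      rw [h])
  convert h2 using 1
  funext i
  refine Fin.cases ?_ (fun i => ?_) i
  · simp
  · simp

/-- **Lemma Z**, for the first element. -/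
theorem lemZ0 {S : Type u} [Field S] [CharZero S] [IsAlgClosed S] {R : Subfield S}
    (hR : ∀ z : S, IsAlgebraic R z → z ∈ R) {n : ℕ} {y : Fin (n + 1) → S}
    (hy : AlgebraicIndependent R y) {v : Fin (n + 1) → S} (hv : ∀ i, v i ∈ acl (ad R {y 0}))
    {i1 : Fin n} (h01 : ∀ a ∈ R, ∀ b ∈ R, a * v 0 + b * v i1.succ = 0 → a = 0 ∧ b = 0) :
    ∃ σ : S ≃+* S, (∀ z ∈ R, σ z = z) ∧ ∑ i, y i * σ (v i) = 0 := by
  have hv0 : v 0 ≠ 0 := by
    intro h0
    have h1 := (h01 1 R.one_mem 0 R.zero_mem (by rw [h0, mul_zero, zero_mul, add_zero])).1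
    exact one_ne_zero h1
  obtain ⟨w, hw⟩ : ∃ w : Fin n → S, ∀ i, w i = v i.succ / v 0 := ⟨_, fun _ => rfl⟩
  have hwQ : ∀ i, w i ∈ acl (ad R {y 0}) := fun i => by
    rw [hw]
    exact div_mem (hv _) (hv _)
  obtain ⟨b, hb⟩ : ∃ b : Fin n → S, ∀ i, b i = y i.succ := ⟨_, fun _ => rfl⟩
  have hbf : b = fun i => y i.succ := funext hb
  obtain ⟨hbi0, hy0⟩ := TW.ai_split hy
  have hbi : AlgebraicIndependent R b := by rw [hbf]; exact hbi0
  have hy0' : Transcendental (gn R b) (y 0) := by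
    rw [hbf, ← adjoin_toSubfield_gn]
    exact hy0
  have hbQ : AlgebraicIndependent (acl (ad R {y 0})) b := by
    have h1 := (TW.ai_over hbi0 hy0).2
    have h2 : AlgebraicIndependent (IntermediateField.adjoin R {y 0}).toSubfield b := by
      rw [hbf]
      exact h1
    exact indep_acl (indep_congr adjoin_ad h2)
  obtain ⟨p, hp⟩ : ∃ p : S, p = ∑ i, b i * w i := ⟨_, rfl⟩
  -- the sum is transcendental
  have hptr : Transcendental (gn R b) p := by
    intro hpalg
    have hpP : p ∈ acl (gn R b) := mem_acl.2 hpalg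
    have hw1R : w i1 ∉ R := by
      intro h1
      have h2 := (h01 (-w i1) (neg_mem h1) 1 R.one_mem (by
        rw [hw]
        field_simp
        ring)).2
      exact one_ne_zero h2
    have hw1 : Transcendental R (w i1) := fun h1 => hw1R (hR _ h1)
    have hyw : y 0 ∈ acl (ad R {w i1}) := by
      rw [mem_acl]
      by_contra h1
      exact exch hw1 h1 (mem_acl.1 (hwQ i1))
    have hw1P : Transcendental (acl (gn R b)) (w i1) := by
      refine tr_acl fun h1 => ?_
      have h2 : acl (ad R {w i1}) ≤ acl (gn R b) := by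
        refine acl_le (ad_le (le_gn.trans le_acl) ?_)
        rintro _ rfl
        exact mem_acl.2 h1
      exact hy0' (mem_acl.1 (h2 hyw))
    have hw1P' : Transcendental (acl (gn R b)) (w i1 + 1) := tr_add hw1P (one_mem _)
    obtain ⟨D, φ, hD, hφ, hφw⟩ := exists_emb hw1P hw1P'
    have hQw : acl (ad R {y 0}) ≤ acl (ad R {w i1}) := by
      refine acl_le (ad_le (le_ad.trans le_acl) ?_)
      rintro _ rfl
      exact hyw
    have hwQ' : acl (ad R {w i1}) ≤ acl (ad R {y 0}) := by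
      refine acl_le (ad_le (le_ad.trans le_acl) ?_)
      rintro _ rfl
      exact hwQ i1
    have hRP : R ≤ acl (gn R b) := le_gn.trans le_acl
    have hQD : acl (ad R {y 0}) ≤ D := fun z hz =>
      hD z (mem_acl.1 (acl_mono (ad_mono hRP le_rfl) (hQw hz)))
    have hPD : acl (gn R b) ≤ D := fun z hz => hD z (alg_mem (le_ad hz))
    have hφQ : ∀ z : D, (z : S) ∈ acl (ad R {y 0}) → φ z ∈ acl (ad R {y 0}) := by
      intro z hz
      have h1 : IsAlgebraic (ad R {w i1 + 1}) (φ z) := by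
        refine emb_alg φ (K := ad R {w i1}) (fun x hx => hD x (alg_mem (ad_mono hRP le_rfl hx))) ?_
          (mem_acl.1 (hQw hz))
        refine emb_ad φ (hRP.trans hPD) ?_ ?_ ?_
        · rintro _ rfl
          exact hQD (hwQ i1)
        · intro x hx
          rw [hφ x (hRP hx)]
          exact le_ad hx
        · intro x hx
          rw [hφw x hx]
          exact mem_adE
      have h2 : ad R {w i1 + 1} ≤ acl (ad R {y 0}) := by
        refine ad_le (le_ad.trans le_acl) ?_
        rintro _ rfl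
        exact add_mem (hwQ i1) (one_mem _)
      exact acl_closed (isAlgebraic_mono h2 h1)
    have hbD : ∀ i, b i ∈ D := fun i => hPD (le_acl (mem_gn i))
    have hwD : ∀ i, w i ∈ D := fun i => hQD (hwQ i)
    have h1 : (⟨p, hPD hpP⟩ : D) = ∑ i, ⟨b i, hbD i⟩ * ⟨w i, hwD i⟩ := by
      apply Subtype.ext
      rw [← D.subtype_apply (∑ i, _), map_sum]
      exact hp
    have h2 := congrArg φ h1
    rw [hφ ⟨p, hPD hpP⟩ hpP, map_sum] at h2
    have h3 : ∑ i, (w i - φ ⟨w i, hwD i⟩) * b i = 0 := by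
      have h4 : ∑ i, (w i - φ ⟨w i, hwD i⟩) * b i =
          p - ∑ i, φ (⟨b i, hbD i⟩ * ⟨w i, hwD i⟩) := by
        rw [hp, ← Finset.sum_sub_distrib]
        refine Finset.sum_congr rfl fun i _ => ?_
        rw [map_mul, hφ ⟨b i, hbD i⟩ (le_acl (mem_gn i))]
        ring
      rw [h4, ← h2]
      exact sub_self p
    have h4 := Fintype.linearIndependent_iff.1 hbQ.linearIndependent
      (fun i => ⟨w i - φ ⟨w i, hwD i⟩, sub_mem (hwQ i) (hφQ _ (hwQ i))⟩) (by
        rw [← h3]
        exact Finset.sum_congr rfl fun i _ => by rw [Algebra.smul_def]; rfl) i1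
    have h5 : w i1 - φ ⟨w i1, hwD i1⟩ = 0 := congrArg Subtype.val h4
    rw [hφw ⟨w i1, hwD i1⟩ rfl] at h5
    apply one_ne_zero (α := S)
    linear_combination -h5
  have hx' : AlgebraicIndependent R (Fin.cons (-p) b : Fin (n + 1) → S) := by
    refine indep_cons hbi fun h1 => hptr ?_
    have h2 := h1.neg
    rwa [neg_neg] at h2
  have hrel : (Fin.cons (-p) b : Fin (n + 1) → S) 0 +
      ∑ i : Fin n, (Fin.cons (-p) b : Fin (n + 1) → S) i.succ * w i = 0 := by
    simp only [Fin.cons_zero, Fin.cons_succ]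
    rw [← hp]
    ring
  have hyalg : y 0 ∈ acl (gn R (Fin.cons (-p) b : Fin (n + 1) → S)) :=
    mem_acl.2 (alg_adjoin_iff.1 (TW.tau_alg_W hx' hrel
      (fun i => alg_adjoin_iff.2 (mem_acl.1 (hwQ i)))))
  have hQy : acl (ad R {y 0}) ≤ acl (gn R y) := by
    refine acl_mono (ad_le le_gn ?_)
    rintro _ rfl
    exact mem_gn 0
  obtain ⟨σ, hσ, hσx⟩ := exists_aut_fam hx' hy (fun i => by
      refine Fin.cases ?_ (fun i => ?_) i
      · rw [Fin.cons_zero, hp]
        refine neg_mem (sum_mem fun i _ => mul_mem ?_ (hQy (hwQ i)))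
        rw [hb]
        exact le_acl (mem_gn _)
      · rw [Fin.cons_succ, hb]
        exact le_acl (mem_gn _)) (fun i => by
      refine Fin.cases hyalg (fun i => ?_) i
      refine le_acl ?_
      have h1 := mem_gn (K := R) (x := (Fin.cons (-p) b : Fin (n + 1) → S)) i.succ
      rwa [Fin.cons_succ, hb] at h1)
  refine ⟨σ, hσ, ?_⟩
  have h0 := hσx 0
  rw [Fin.cons_zero] at h0
  have hs : ∀ i : Fin n, σ (b i) = y i.succ := fun i => by
    have h1 := hσx i.succ
    rwa [Fin.cons_succ] at h1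
  rw [Fin.sum_univ_succ, ← h0, ← map_mul]
  have h1 : ∑ i : Fin n, y i.succ * σ (v i.succ) = σ (∑ i : Fin n, b i * v i.succ) := by
    rw [map_sum]
    exact Finset.sum_congr rfl fun i _ => by rw [map_mul, hs]
  rw [h1, ← map_add]
  have h2 : -p * v 0 + ∑ i : Fin n, b i * v i.succ = 0 := by
    rw [hp, neg_mul, Finset.sum_mul, neg_add_eq_zero]
    refine Finset.sum_congr rfl fun i _ => ?_
    rw [hw, mul_assoc, div_mul_cancel₀ _ hv0]
  rw [h2, map_zero]

/-- **Lemma Z.** -/
theorem lemZ {S : Type u} [Field S] [CharZero S] [IsAlgClosed S] {R : Subfield S}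
    (hR : ∀ z : S, IsAlgebraic R z → z ∈ R) {n : ℕ} {y : Fin (n + 1) → S}
    (hy : AlgebraicIndependent R y) (e0 e1 : Fin (n + 1)) {v : Fin (n + 1) → S}
    (hv : ∀ i, v i ∈ acl (ad R {y e0}))
    (h01 : ∀ a ∈ R, ∀ b ∈ R, a * v e0 + b * v e1 = 0 → a = 0 ∧ b = 0) :
    ∃ σ : S ≃+* S, (∀ z ∈ R, σ z = z) ∧ ∑ i, y i * σ (v i) = 0 := by
  have hne : e1 ≠ e0 := by
    rintro rfl
    have h1 := (h01 1 R.one_mem (-1) (neg_mem R.one_mem) (by ring)).1
    exact one_ne_zero h1
  let τ : Equiv.Perm (Fin (n + 1)) := Equiv.swap 0 e0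
  have hτ0 : τ 0 = e0 := Equiv.swap_apply_left _ _
  obtain ⟨i1, hi1⟩ : ∃ i1 : Fin n, i1.succ = τ e1 := by
    have h1 : τ e1 ≠ 0 := by
      intro h2
      apply hne
      have h3 := congrArg τ h2
      rw [hτ0] at h3
      rwa [show τ (τ e1) = e1 from Equiv.swap_apply_self _ _ _ |>.trans rfl] at h3
    exact ⟨(τ e1).pred h1, Fin.succ_pred _ h1⟩
  have hτ1 : τ i1.succ = e1 := by
    rw [hi1]
    exact Equiv.swap_apply_self _ _ _
  obtain ⟨σ, hσ, hs⟩ := lemZ0 hR (y := y ∘ τ) (hy.comp _ τ.injective) (v := v ∘ τ) (i1 := i1)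
    (fun i => by
      simp only [Function.comp_apply, hτ0]
      exact hv _)
    (fun a ha b hb hab => h01 a ha b hb (by
      simp only [Function.comp_apply, hτ0, hτ1] at hab
      exact hab))
  refine ⟨σ, hσ, ?_⟩
  rw [← hs]
  exact (Equiv.sum_comp τ (fun i => y i * σ (v i))).symm

end Pool.Agent.FF40
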